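import Mathlib

/-! Geometry of trees and deck transformations of tree coverings. -/

namespace Pool.Agent.Lib.MP1155ce

open SimpleGraph

variable {V : Type*} {T : SimpleGraph V}

/-- The branch of the tree at `x` in the direction of its neighbour `y`. -/
def Br (T : SimpleGraph V) (x y : V) : Set V := {w | T.dist y w < T.dist x w}

lemma mem_Br {x y w : V} : w ∈ Br T x y ↔ T.dist y w < T.dist x w := Iff.rfl

lemma not_mem_Br_iff (hT : T.IsTree) {x y : V} (h : T.Adj x y) (w : V) :
    w ∉ Br T x y ↔ w ∈ Br T y x := by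
  rw [mem_Br, mem_Br]
  have := hT.dist_ne_of_adj w h
  rw [T.dist_comm, T.dist_comm (u := w)] at this
  omega

lemma self_not_mem_Br {x y : V} : x ∉ Br T x y := by
  rw [mem_Br]; simp

lemma nbr_mem_Br {x y : V} (h : T.Adj x y) : y ∈ Br T x y := by
  rw [mem_Br]
  simp only [dist_self]
  exact (h.reachable.pos_dist_of_ne h.ne)

/-- a shortest walk starting by an edge -/
lemma exists_path_of_lt (hT : T.IsTree) {x y w : V} (h : T.Adj x y) (hw : w ∈ Br T x y) :
    ∃ (q : T.Walk y w), (Walk.cons h q).IsPath := by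
  obtain ⟨q, hq⟩ := (hT.connected y w).exists_walk_length_eq_dist
  refine ⟨q, ?_⟩
  apply Walk.isPath_of_length_eq_dist
  rw [Walk.length_cons, hq]
  rw [mem_Br] at hw
  have h1 := hT.dist_eq_dist_add_one_of_adj w h
  rw [T.dist_comm, T.dist_comm (u := w)] at h1
  omega

lemma Br_unique (hT : T.IsTree) {x y y' w : V} (h : T.Adj x y) (h' : T.Adj x y')
    (hw : w ∈ Br T x y) (hw' : w ∈ Br T x y') : y = y' := by
  obtain ⟨q, hq⟩ := exists_path_of_lt hT h hw
  obtain ⟨q', hq'⟩ := exists_path_of_lt hT h' hw'
  have := (hT.existsUnique_path x w).unique hq hq'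
  injection this

lemma exists_Br (hT : T.IsTree) {x w : V} (hne : w ≠ x) : ∃ y, T.Adj x y ∧ w ∈ Br T x y := by
  obtain ⟨p, hp⟩ := (hT.connected x w).exists_walk_length_eq_dist
  cases p with
  | nil => exact absurd rfl hne
  | @cons _ y _ h q =>
    refine ⟨y, h, ?_⟩
    rw [mem_Br, ← hp, Walk.length_cons]
    exact lt_of_le_of_lt (dist_le q) (Nat.lt_succ_self _)

lemma Br_boundary (hT : T.IsTree) {x y w w' : V} (h : T.Adj x y) (hww : T.Adj w w')
    (hw : w ∈ Br T x y) (hw' : w' ∉ Br T x y) : w = y ∧ w' = x := by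
  classical
  rw [not_mem_Br_iff hT h] at hw'
  -- path from x to w through y
  obtain ⟨q, hq⟩ := exists_path_of_lt hT h hw
  obtain ⟨q', hq'⟩ := exists_path_of_lt hT h.symm hw'
  -- q' : x -> w' a path avoiding y
  rw [Walk.cons_isPath_iff] at hq'
  by_cases hwx : w ∈ q'.support
  · -- then w lies on path from x to w', so the path from x to w avoids y
    exfalso
    have hq2 : (q'.takeUntil w hwx).IsPath := hq'.1.takeUntil hwx
    have := (hT.existsUnique_path x w).unique hq hq2
    have hy : y ∈ (q'.takeUntil w hwx).support := by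
      rw [← this]; simp
    exact hq'.2 (Walk.support_takeUntil_subset_support _ _ hy)
  · have hq2 : (q'.concat hww.symm).IsPath := hq'.1.concat hwx _
    have := (hT.existsUnique_path x w).unique hq hq2
    have hy : y ∈ (q'.concat hww.symm).support := by
      rw [← this]; simp
    rw [Walk.support_concat] at hy
    simp only [List.mem_append, List.mem_singleton] at hy
    rcases hy with hy | hy
    · exact absurd hy hq'.2
    · subst hy
      refine ⟨rfl, ?_⟩
      have h3 : (Walk.cons h Walk.nil : T.Walk x y).IsPath := by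
        simp [h.ne]
      have h4 := (hT.existsUnique_path x y).unique h3 hq2
      have h5 : (q'.concat hww.symm).length = 1 := by rw [← h4]; simp
      rw [Walk.length_concat] at h5
      have h6 : q'.length = 0 := by omega
      exact (Walk.eq_of_length_eq_zero h6).symm


/-! Deck transformations. -/

section Deck

variable {B : Type*} {G : SimpleGraph B} {Xi : V → B}

/-- the neighbour of `x` above `v` (or `x` if there is none) -/
noncomputable def nb (T : SimpleGraph V) (Xi : V → B) (x : V) (v : B) : V :=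
  open Classical in if h : ∃ y, T.Adj x y ∧ Xi y = v then h.choose else x

lemma nb_spec (hXi : ∀ x, Set.BijOn Xi (T.neighborSet x) (G.neighborSet (Xi x)))
    {x : V} {v : B} (h : G.Adj (Xi x) v) : T.Adj x (nb T Xi x v) ∧ Xi (nb T Xi x v) = v := by
  have : ∃ y, T.Adj x y ∧ Xi y = v := by
    obtain ⟨y, hy, hy'⟩ := (hXi x).surjOn h
    exact ⟨y, hy, hy'⟩
  unfold nb
  rw [dif_pos this]
  exact this.choose_spec

lemma nb_eq (hXi : ∀ x, Set.BijOn Xi (T.neighborSet x) (G.neighborSet (Xi x)))
    {x y : V} (h : T.Adj x y) : nb T Xi x (Xi y) = y := by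
  have h1 : G.Adj (Xi x) (Xi y) := (hXi x).mapsTo h
  have h2 := nb_spec hXi h1
  exact (hXi x).injOn h2.1 h h2.2

/-- the base walk below a walk, without its first vertex -/
def low (Xi : V → B) {x w : V} (p : T.Walk x w) : List B := p.support.tail.map Xi

lemma low_nil {x : V} : low Xi (Walk.nil : T.Walk x x) = [] := rfl

lemma low_cons {x y w : V} (h : T.Adj x y) (p : T.Walk y w) :
    low Xi (Walk.cons h p) = Xi y :: low Xi p := by
  unfold low
  rw [Walk.support_cons, List.tail_cons]
  conv_lhs => rw [← Walk.cons_tail_support p]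
  rw [List.map_cons]

lemma low_concat {x y w : V} (p : T.Walk x y) (h : T.Adj y w) :
    low Xi (p.concat h) = low Xi p ++ [Xi w] := by
  induction p with
  | nil => simp [Walk.concat_nil, low_cons, low_nil]
  | cons h' q ih => rw [Walk.concat_cons, low_cons, low_cons, ih]; simp

lemma foldl_low (hXi : ∀ x, Set.BijOn Xi (T.neighborSet x) (G.neighborSet (Xi x)))
    {x w : V} (p : T.Walk x w) : (low Xi p).foldl (nb T Xi) x = w := by
  induction p with
  | nil => rfl
  | cons h q ih => rw [low_cons, List.foldl_cons, nb_eq hXi h, ih]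

lemma lift_walk (hXi : ∀ x, Set.BijOn Xi (T.neighborSet x) (G.neighborSet (Xi x)))
    {x w : V} (p : T.Walk x w) : ∀ x' : V, Xi x' = Xi x →
      ∃ (w' : V) (p' : T.Walk x' w'), low Xi p' = low Xi p ∧ Xi w' = Xi w := by
  induction p with
  | nil => intro x' hx'; exact ⟨x', Walk.nil, rfl, hx'⟩
  | @cons u v w h q ih =>
    intro x' hx'
    have h1 : G.Adj (Xi x') (Xi v) := by rw [hx']; exact (hXi u).mapsTo h
    obtain ⟨h2, h3⟩ := nb_spec hXi h1
    obtain ⟨w', p', hp', hw'⟩ := ih _ h3
    refine ⟨w', Walk.cons h2 p', ?_, hw'⟩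
    rw [low_cons, low_cons, hp', h3]

lemma low_isPath (hT : T.IsTree) (hXi : ∀ x, Set.BijOn Xi (T.neighborSet x) (G.neighborSet (Xi x)))
    {x w : V} (p : T.Walk x w) : p.IsPath → ∀ {x' w' : V} (p' : T.Walk x' w'), Xi x' = Xi x →
      low Xi p' = low Xi p → p'.IsPath := by
  simp only [hT.isAcyclic.isPath_iff_isChain]
  induction p with
  | nil =>
    intro _ x' w' p' _ hp'
    cases p' with
    | nil => simp
    | cons h' q' => rw [low_cons, low_nil] at hp'; cases hp'
  | @cons u v w h q ih =>
    intro hp x' w' p' hx' hp'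
    cases p' with
    | nil => simp
    | @cons _ v' _ h' q' =>
      rw [low_cons, low_cons] at hp'
      injection hp' with hv hq
      rw [Walk.edges_cons] at hp ⊢
      rw [List.isChain_cons] at hp ⊢
      refine ⟨?_, ih hp.2 q' hv hq⟩
      intro e he
      cases q' with
      | nil => simp at he
      | @cons _ y' _ h2' r' =>
        cases q with
        | nil => rw [low_cons, low_nil] at hq; cases hq
        | @cons _ y _ h2 r =>
          rw [low_cons, low_cons] at hq
          injection hq with hy hr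
          rw [Walk.edges_cons] at he
          simp only [List.head?_cons, Option.mem_def, Option.some.injEq] at he
          subst he
          have h3 := hp.1 s(v, y) (by simp)
          intro h4
          apply h3
          have h5 : x' = y' := by
            rcases Sym2.eq_iff.mp h4 with ⟨h6, h7⟩ | ⟨h6, h7⟩
            · exact absurd h6 h'.ne
            · exact h6
          have h6 : u = y := by
            apply (hXi v).injOn
            · exact h.symm
            · exact h2
            · rw [← hy, ← h5, hx']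
          rw [h6]
          exact Sym2.eq_swap

/-- The deck map sending `x` to `x'`. -/
noncomputable def deckFun (hT : T.IsTree) (Xi : V → B) (x x' w : V) : V :=
  (low Xi (hT.existsUnique_path x w).exists.choose).foldl (nb T Xi) x'

lemma deckFun_eq (hT : T.IsTree) {x w : V} (x' : V) (p : T.Walk x w) (hp : p.IsPath) :
    deckFun hT Xi x x' w = (low Xi p).foldl (nb T Xi) x' := by
  unfold deckFun
  have := (hT.existsUnique_path x w).unique (hT.existsUnique_path x w).exists.choose_spec hp
  rw [this]

lemma deckFun_prop (hT : T.IsTree)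
    (hXi : ∀ x, Set.BijOn Xi (T.neighborSet x) (G.neighborSet (Xi x)))
    {x x' : V} (hx : Xi x' = Xi x) (w : V) :
    Xi (deckFun hT Xi x x' w) = Xi w ∧ deckFun hT Xi x' x (deckFun hT Xi x x' w) = w := by
  obtain ⟨p, hp⟩ := (hT.existsUnique_path x w).exists
  obtain ⟨w', p', hp', hw'⟩ := lift_walk hXi p x' hx
  have h1 : deckFun hT Xi x x' w = w' := by
    rw [deckFun_eq hT x' p hp, ← hp', foldl_low hXi]
  have h2 : p'.IsPath := low_isPath hT hXi p hp p' hx hp'
  rw [h1]
  refine ⟨hw', ?_⟩
  rw [deckFun_eq hT x p' h2, hp', foldl_low hXi]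

lemma deckFun_adj (hT : T.IsTree)
    (hXi : ∀ x, Set.BijOn Xi (T.neighborSet x) (G.neighborSet (Xi x)))
    {x x' : V} (hx : Xi x' = Xi x) {w1 w2 : V} (h : T.Adj w1 w2) :
    T.Adj (deckFun hT Xi x x' w1) (deckFun hT Xi x x' w2) := by
  -- symmetric statement
  have key : ∀ {w1 w2 : V} (h : T.Adj w1 w2) (p : T.Walk x w1), p.IsPath → w2 ∉ p.support →
      T.Adj (deckFun hT Xi x x' w1) (deckFun hT Xi x x' w2) := by
    intro w1 w2 h p hp hw
    have h1 := deckFun_eq (Xi := Xi) hT x' p hp
    have h2 := deckFun_eq (Xi := Xi) hT x' (p.concat h) (hp.concat hw h)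
    rw [low_concat, List.foldl_append, ← h1] at h2
    simp only [List.foldl_cons, List.foldl_nil] at h2
    rw [h2]
    have h3 : G.Adj (Xi (deckFun hT Xi x x' w1)) (Xi w2) := by
      rw [(deckFun_prop hT hXi hx w1).1]
      exact (hXi w1).mapsTo h
    exact (nb_spec hXi h3).1
  obtain ⟨p, hp⟩ := (hT.existsUnique_path x w1).exists
  by_cases hw : w2 ∈ p.support
  · obtain ⟨q, hq⟩ := (hT.existsUnique_path x w2).exists
    have := hT.isAcyclic.ne_mem_support_of_support_of_adj_of_isPath hp hq h hw
    exact (key h.symm q hq this).symm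
  · exact key h p hp hw

/-- The deck group acts transitively on fibres. -/
theorem exists_deck (hT : T.IsTree)
    (hXi : ∀ x, Set.BijOn Xi (T.neighborSet x) (G.neighborSet (Xi x)))
    {x x' : V} (hx : Xi x = Xi x') :
    ∃ φ : T ≃g T, φ x = x' ∧ ∀ w, Xi (φ w) = Xi w := by
  refine ⟨⟨⟨deckFun hT Xi x x', deckFun hT Xi x' x,
    fun w => (deckFun_prop hT hXi hx.symm w).2, fun w => (deckFun_prop hT hXi hx w).2⟩, ?_⟩, ?_, ?_⟩
  · intro w1 w2
    constructor
    · intro h
      have h1 := deckFun_adj hT hXi hx h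
      simp only [Equiv.coe_fn_mk] at h1
      rwa [(deckFun_prop hT hXi hx.symm w1).2, (deckFun_prop hT hXi hx.symm w2).2] at h1
    · intro h
      exact deckFun_adj hT hXi hx.symm h
  · change deckFun hT Xi x x' x = x'
    rw [deckFun_eq hT x' Walk.nil Walk.IsPath.nil, low_nil]
    rfl
  · intro w
    exact (deckFun_prop hT hXi hx.symm w).1

end Deck

lemma dist_iso_le (hT : T.IsTree) (φ : T ≃g T) (a b : V) : T.dist (φ a) (φ b) ≤ T.dist a b := by
  obtain ⟨p, hp⟩ := (hT.connected a b).exists_walk_length_eq_dist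
  rw [← hp]
  have h := dist_le (p.map φ.toHom)
  rw [Walk.length_map] at h
  exact h

lemma dist_iso (hT : T.IsTree) (φ : T ≃g T) (a b : V) : T.dist (φ a) (φ b) = T.dist a b := by
  apply le_antisymm (dist_iso_le hT φ a b)
  have h := dist_iso_le hT φ.symm (φ a) (φ b)
  simpa using h

lemma Br_iso (hT : T.IsTree) (φ : T ≃g T) (x y w : V) :
    φ w ∈ Br T (φ x) (φ y) ↔ w ∈ Br T x y := by
  rw [mem_Br, mem_Br, dist_iso hT, dist_iso hT]

end Pool.Agent.Lib.MP1155ce
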