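import Mathlib
import Pool.Agent.Lib.MP_1155ce_an.Tree

/-! Square summable functions on a tree and the reproducing kernel of an eigenspace. -/

namespace Pool.Agent.Lib.MP1155ce

open SimpleGraph

variable {V : Type*}

/-- square summable real functions -/
def SqS (f : V → ℝ) : Prop := Summable (fun x => f x ^ 2)

lemma SqS.mul {f g : V → ℝ} (hf : SqS f) (hg : SqS g) : Summable (fun x => f x * g x) := by
  apply Summable.of_norm_bounded (g := fun x => f x ^ 2 + g x ^ 2) (hf.add hg)
  intro x
  rw [Real.norm_eq_abs, abs_mul]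
  nlinarith [sq_abs (f x), sq_abs (g x), sq_nonneg (|f x| - |g x|), sq_nonneg (|f x|),
    sq_nonneg (|g x|)]

lemma SqS.add {f g : V → ℝ} (hf : SqS f) (hg : SqS g) : SqS (fun x => f x + g x) := by
  unfold SqS
  have h1 : Summable (fun x => f x ^ 2) := hf
  have h2 : Summable (fun x => g x ^ 2) := hg
  have h := (h1.add h2).add ((hf.mul hg).mul_left 2)
  refine h.congr ?_
  intro x; ring

lemma SqS.smul {f : V → ℝ} (hf : SqS f) (t : ℝ) : SqS (fun x => t * f x) := by
  unfold SqS
  refine (Summable.mul_left (t ^ 2) hf).congr ?_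
  intro x; ring

lemma SqS.sub {f g : V → ℝ} (hf : SqS f) (hg : SqS g) : SqS (fun x => f x - g x) := by
  have h := hf.add (hg.smul (-1))
  unfold SqS at h ⊢
  refine h.congr ?_
  intro x; ring

lemma SqS.zero : SqS (fun _ : V => (0 : ℝ)) := by
  unfold SqS; simp

lemma SqS.sum {ι : Type*} (s : Finset ι) {f : ι → V → ℝ} (h : ∀ i ∈ s, SqS (f i)) :
    SqS (fun x => ∑ i ∈ s, f i x) := by
  classical
  induction s using Finset.induction_on with
  | empty => simpa using SqS.zero
  | insert i s hi ih =>
    simp only [Finset.sum_insert hi]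
    exact (h i (by simp)).add (ih fun j hj => h j (by simp [hj]))

open Classical in
/-- restriction of a function to a set -/
noncomputable def rst (S : Set V) (f : V → ℝ) : V → ℝ := fun x => if x ∈ S then f x else 0

lemma rst_mem {S : Set V} {f : V → ℝ} {x : V} (h : x ∈ S) : rst S f x = f x := by
  unfold rst; rw [if_pos h]

lemma rst_not_mem {S : Set V} {f : V → ℝ} {x : V} (h : x ∉ S) : rst S f x = 0 := by
  unfold rst; rw [if_neg h]

lemma SqS.rst {f : V → ℝ} (hf : SqS f) (S : Set V) : SqS (rst S f) := by
  unfold SqS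
  apply Summable.of_nonneg_of_le (fun x => sq_nonneg _) _ hf
  intro x
  by_cases h : x ∈ S
  · rw [rst_mem h]
  · rw [rst_not_mem h]; simpa using sq_nonneg (f x)

/-- the inner product -/
noncomputable def ip (f g : V → ℝ) : ℝ := ∑' x, f x * g x

lemma ip_comm (f g : V → ℝ) : ip f g = ip g f := by
  unfold ip; congr 1; ext x; ring

lemma ip_add_left {f g h : V → ℝ} (hf : SqS f) (hg : SqS g) (hh : SqS h) :
    ip (fun x => f x + g x) h = ip f h + ip g h := by
  unfold ip
  rw [← (hf.mul hh).tsum_add (hg.mul hh)]
  congr 1; ext x; ring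

lemma ip_sub_left {f g h : V → ℝ} (hf : SqS f) (hg : SqS g) (hh : SqS h) :
    ip (fun x => f x - g x) h = ip f h - ip g h := by
  unfold ip
  rw [← (hf.mul hh).tsum_sub (hg.mul hh)]
  congr 1; ext x; ring

lemma ip_smul_left (t : ℝ) (f h : V → ℝ) :
    ip (fun x => t * f x) h = t * ip f h := by
  unfold ip
  rw [← tsum_mul_left]
  congr 1; ext x; ring

lemma ip_sum_left {ι : Type*} (s : Finset ι) {f : ι → V → ℝ} (h : ∀ i ∈ s, SqS (f i)) {g : V → ℝ}
    (hg : SqS g) : ip (fun x => ∑ i ∈ s, f i x) g = ∑ i ∈ s, ip (f i) g := by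
  classical
  induction s using Finset.induction_on with
  | empty => simp [ip]
  | insert i s hi ih =>
    simp only [Finset.sum_insert hi]
    rw [ip_add_left (h i (by simp)) (SqS.sum s fun j hj => h j (by simp [hj])) hg,
      ih fun j hj => h j (by simp [hj])]

lemma ip_self_nonneg (f : V → ℝ) : 0 ≤ ip f f := by
  unfold ip; apply tsum_nonneg; intro x; exact mul_self_nonneg _

lemma ip_self_eq_zero {f : V → ℝ} (hf : SqS f) (h : ip f f = 0) : ∀ x, f x = 0 := by
  intro x
  have h1 : f x * f x ≤ ip f f :=
    (hf.mul hf).le_tsum x (fun y _ => mul_self_nonneg _)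
  rw [h] at h1
  have h2 := mul_self_nonneg (f x)
  exact mul_self_eq_zero.mp (le_antisymm h1 h2)

lemma ip_rst_left (S : Set V) (f g : V → ℝ) : ip (rst S f) g = ip (rst S f) (rst S g) := by
  unfold ip
  congr 1; ext x
  by_cases h : x ∈ S
  · rw [rst_mem h, rst_mem h]
  · rw [rst_not_mem h]; simp

lemma ip_rst_comm (S : Set V) (f g : V → ℝ) : ip (rst S f) g = ip f (rst S g) := by
  unfold ip
  congr 1; ext x
  by_cases h : x ∈ S
  · rw [rst_mem h, rst_mem h]
  · rw [rst_not_mem h, rst_not_mem h]; simp

section Jacobi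

variable (T : SimpleGraph V) [T.LocallyFinite]

/-- The off-diagonal part of the Jacobi operator. -/
noncomputable def aop (w : V → V → ℝ) (f : V → ℝ) (x : V) : ℝ :=
  ∑ y ∈ T.neighborFinset x, w x y * f y

lemma summable_adj {D : ℕ} (hD : ∀ x, T.degree x ≤ D) {h : V → ℝ} (h0 : ∀ x, 0 ≤ h x)
    (hs : Summable h) :
    open Classical in Summable (fun p : V × V => if T.Adj p.1 p.2 then h p.1 else 0) := by
  classical
  rw [summable_prod_of_nonneg]
  · constructor
    · intro x
      apply summable_of_hasFiniteSupport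
      apply Set.Finite.subset (T.neighborFinset x).finite_toSet
      intro y hy
      simp only [Function.mem_support, ne_eq, ite_eq_right_iff, Classical.not_imp] at hy
      simpa using hy.1
    · have h1 : ∀ x, ∑' y, (if T.Adj x y then h x else 0) = T.degree x * h x := by
        intro x
        rw [tsum_eq_sum (s := T.neighborFinset x)]
        · rw [Finset.sum_congr rfl (g := fun _ => h x)]
          · rw [Finset.sum_const, card_neighborFinset_eq_degree, nsmul_eq_mul]
          · intro y hy
            rw [mem_neighborFinset] at hy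
            rw [if_pos hy]
        · intro y hy
          rw [mem_neighborFinset] at hy
          rw [if_neg hy]
      simp only [h1]
      apply Summable.of_nonneg_of_le _ _ (hs.mul_left (D : ℝ))
      · intro x; exact mul_nonneg (Nat.cast_nonneg _) (h0 x)
      · intro x
        apply mul_le_mul_of_nonneg_right _ (h0 x)
        exact_mod_cast hD x
  · intro p
    simp only [Pi.zero_apply]
    split_ifs
    · exact h0 _
    · exact le_refl _

/-- Symmetry of the off-diagonal part. -/
theorem aop_symm {D : ℕ} (hD : ∀ x, T.degree x ≤ D) {w : V → V → ℝ} (hw : ∀ x y, w x y = w y x)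
    {M : ℝ} (hM : ∀ x y, |w x y| ≤ M) {f g : V → ℝ} (hf : SqS f) (hg : SqS g) :
    ip (aop T w f) g = ip f (aop T w g) := by
  classical
  set F : V → V → ℝ := fun x y => if T.Adj x y then w x y * f y * g x else 0 with hF
  have hM0 : ∀ (x : V), 0 ≤ M := fun x => (abs_nonneg _).trans (hM x x)
  have hsum : Summable (Function.uncurry F) := by
    have h1 := summable_adj T hD (h := fun x => g x ^ 2) (fun x => sq_nonneg _) hg
    have h2 := summable_adj T hD (h := fun x => f x ^ 2) (fun x => sq_nonneg _) hf
    have h3 := (h2.prod_symm)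
    apply Summable.of_norm_bounded ((h1.add h3).mul_left M)
    rintro ⟨x, y⟩
    simp only [Function.uncurry, hF, Prod.swap_prod_mk]
    by_cases h : T.Adj x y
    · rw [if_pos h, if_pos h, if_pos h.symm]
      rw [Real.norm_eq_abs, abs_mul, abs_mul]
      have e1 : |f y| * |g x| ≤ g x ^ 2 + f y ^ 2 := by
        nlinarith [sq_abs (f y), sq_abs (g x), sq_nonneg (|f y| - |g x|), sq_nonneg (|f y|),
          sq_nonneg (|g x|)]
      calc |w x y| * |f y| * |g x| = |w x y| * (|f y| * |g x|) := by ring
        _ ≤ M * (|f y| * |g x|) := by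
            apply mul_le_mul_of_nonneg_right (hM x y)
            positivity
        _ ≤ M * (g x ^ 2 + f y ^ 2) := mul_le_mul_of_nonneg_left e1 (hM0 x)
    · rw [if_neg h, if_neg h, if_neg (fun h' => h h'.symm)]; simp
  have h1 : ∀ x, ∑' y, F x y = aop T w f x * g x := by
    intro x
    rw [tsum_eq_sum (s := T.neighborFinset x)]
    · unfold aop
      rw [Finset.sum_mul]
      apply Finset.sum_congr rfl
      intro y hy
      rw [mem_neighborFinset] at hy
      simp only [hF]
      rw [if_pos hy]
    · intro y hy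
      rw [mem_neighborFinset] at hy
      simp only [hF]
      rw [if_neg hy]
  have h2 : ∀ y, ∑' x, F x y = f y * aop T w g y := by
    intro y
    rw [tsum_eq_sum (s := T.neighborFinset y)]
    · unfold aop
      rw [Finset.mul_sum]
      apply Finset.sum_congr rfl
      intro x hx
      rw [mem_neighborFinset] at hx
      simp only [hF]
      rw [if_pos hx.symm, hw x y]
      ring
    · intro x hx
      rw [mem_neighborFinset] at hx
      simp only [hF]
      rw [if_neg (fun h' => hx h'.symm)]
  unfold ip
  rw [← tsum_congr h1, ← tsum_congr h2]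
  exact hsum.tsum_comm.symm

/-- eigenfunctions -/
def Eig (c : V → ℝ) (w : V → V → ℝ) (lam : ℝ) (f : V → ℝ) : Prop :=
  SqS f ∧ ∀ x, c x * f x + aop T w f x = lam * f x

variable {T}

lemma aop_add (w : V → V → ℝ) (f g : V → ℝ) (x : V) :
    aop T w (fun y => f y + g y) x = aop T w f x + aop T w g x := by
  unfold aop; rw [← Finset.sum_add_distrib]; apply Finset.sum_congr rfl; intro y _; ring

lemma aop_smul (w : V → V → ℝ) (t : ℝ) (f : V → ℝ) (x : V) :
    aop T w (fun y => t * f y) x = t * aop T w f x := by
  unfold aop; rw [Finset.mul_sum]; apply Finset.sum_congr rfl; intro y _; ring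

lemma aop_sub (w : V → V → ℝ) (f g : V → ℝ) (x : V) :
    aop T w (fun y => f y - g y) x = aop T w f x - aop T w g x := by
  unfold aop; rw [← Finset.sum_sub_distrib]; apply Finset.sum_congr rfl; intro y _; ring

variable {c : V → ℝ} {w : V → V → ℝ} {lam : ℝ}

lemma Eig.add {f g : V → ℝ} (hf : Eig T c w lam f) (hg : Eig T c w lam g) :
    Eig T c w lam (fun x => f x + g x) := by
  refine ⟨hf.1.add hg.1, fun x => ?_⟩
  rw [aop_add]
  linear_combination hf.2 x + hg.2 x

lemma Eig.sub {f g : V → ℝ} (hf : Eig T c w lam f) (hg : Eig T c w lam g) :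
    Eig T c w lam (fun x => f x - g x) := by
  refine ⟨hf.1.sub hg.1, fun x => ?_⟩
  rw [aop_sub]
  linear_combination hf.2 x - hg.2 x

lemma Eig.smul {f : V → ℝ} (hf : Eig T c w lam f) (t : ℝ) :
    Eig T c w lam (fun x => t * f x) := by
  refine ⟨hf.1.smul t, fun x => ?_⟩
  rw [aop_smul]
  linear_combination t * hf.2 x

/-- existence of the reproducing kernel -/
theorem exists_kernel (T : SimpleGraph V) [T.LocallyFinite] (c : V → ℝ) (w : V → V → ℝ)
    (lam : ℝ) : ∃ k : V → V → ℝ, ∀ x, Eig T c w lam (k x) ∧
      ∀ u, Eig T c w lam u → ip (k x) u = u x := by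
  classical
  let E : Submodule ℝ (lp (fun _ : V => ℝ) 2) :=
    { carrier := {u | ∀ x, c x * u x + aop T w u x = lam * u x}
      add_mem' := by
        intro f g hf hg x
        have h1 := hf x
        have h2 := hg x
        have h3 := aop_add (T := T) w f g x
        rw [lp.coeFn_add]
        simp only [Pi.add_apply]
        have h4 : aop T w ((f : V → ℝ) + (g : V → ℝ)) x = aop T w f x + aop T w g x := h3
        rw [h4]
        linear_combination h1 + h2
      zero_mem' := by
        intro x
        rw [lp.coeFn_zero]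
        simp [aop]
      smul_mem' := by
        intro t f hf x
        have h1 := hf x
        have h3 := aop_smul (T := T) w t f x
        rw [lp.coeFn_smul]
        have h4 : aop T w (t • (f : V → ℝ)) x = t * aop T w f x := h3
        rw [h4]
        simp only [Pi.smul_apply, smul_eq_mul]
        linear_combination t * h1 }
  have hE : ∀ u : lp (fun _ : V => ℝ) 2, u ∈ E ↔ ∀ x, c x * u x + aop T w u x = lam * u x :=
    fun u => Iff.rfl
  have hcont : ∀ x : V, Continuous (fun u : lp (fun _ : V => ℝ) 2 => u x) := by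
    intro x
    exact (lp.lipschitzWith_one_eval 2 x).continuous
  have hclosed : IsClosed (E : Set (lp (fun _ : V => ℝ) 2)) := by
    have : (E : Set (lp (fun _ : V => ℝ) 2)) =
        ⋂ x, {u : lp (fun _ : V => ℝ) 2 | c x * u x + aop T w u x = lam * u x} := by
      ext u
      simp only [Set.mem_iInter, Set.mem_ofPred_eq]
      exact hE u
    rw [this]
    apply isClosed_iInter
    intro x
    apply isClosed_eq
    · apply Continuous.add
      · exact continuous_const.mul (hcont x)
      · unfold aop
        apply continuous_finsetSum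
        intro y _
        exact continuous_const.mul (hcont y)
    · exact continuous_const.mul (hcont x)
  have : CompleteSpace E := hclosed.completeSpace_coe
  have hsq : ∀ u : lp (fun _ : V => ℝ) 2, SqS (fun x => u x) := by
    intro u
    have h1 := lp.summable_inner (𝕜 := ℝ) u u
    unfold SqS
    refine h1.congr ?_
    intro x
    simp [pow_two]
  have hmem : ∀ u : V → ℝ, SqS u → Memℓp (E := fun _ : V => ℝ) u 2 := by
    intro u hu
    apply memℓp_gen
    unfold SqS at hu
    refine hu.congr ?_
    intro x
    simp [ENNReal.toReal_ofNat]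
  refine ⟨fun x => (E.orthogonalProjectionOnto (lp.single 2 x (1 : ℝ)) : lp (fun _ : V => ℝ) 2), ?_⟩
  intro x
  refine ⟨⟨hsq _, ?_⟩, ?_⟩
  · exact (E.orthogonalProjectionOnto (lp.single 2 x (1 : ℝ))).2
  · intro u hu
    obtain ⟨U, hU⟩ : ∃ U : lp (fun _ : V => ℝ) 2, ∀ y, U y = u y :=
      ⟨(⟨u, hmem u hu.1⟩ : lp (fun _ : V => ℝ) 2), fun y => rfl⟩
    have hU' : (fun y => U y) = u := funext hU
    have hu2 : U ∈ E := by
      rw [hE]
      intro y
      have h := hu.2 y
      rw [← hU'] at h
      exact h
    have h1 : inner ℝ ((E.orthogonalProjectionOnto (lp.single 2 x (1 : ℝ)) : E) :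
        lp (fun _ : V => ℝ) 2) U = inner ℝ (lp.single (E := fun _ : V => ℝ) 2 x (1 : ℝ)) U :=
      Submodule.inner_orthogonalProjectionOnto_eq_of_mem_right (K := E) ⟨U, hu2⟩
        (lp.single 2 x (1 : ℝ))
    rw [lp.inner_single_left, lp.inner_eq_tsum] at h1
    simp only [RCLike.inner_apply, conj_trivial] at h1
    unfold ip
    rw [← hU x]
    rw [mul_one] at h1
    rw [← h1]
    apply tsum_congr
    intro y
    rw [← hU y]
    ring

end Jacobi

end Pool.Agent.Lib.MP1155ce
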