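import Mathlib
import Pool.Agent.Lib.MP_1155ce_an.Hilb

/-! Local identities for the reproducing kernel of an eigenspace on a tree. -/

namespace Pool.Agent.Lib.MP1155ce

open SimpleGraph

variable {V : Type*} {T : SimpleGraph V} [T.LocallyFinite] {c : V → ℝ} {w : V → V → ℝ} {lam : ℝ}

/-- standing hypotheses on the tree and the coefficients -/
structure Good (T : SimpleGraph V) [T.LocallyFinite] (c : V → ℝ) (w : V → V → ℝ) : Prop where
  tree : T.IsTree
  deg : ∃ D : ℕ, ∀ x, T.degree x ≤ D
  cb : ∃ M : ℝ, ∀ x, |c x| ≤ M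
  wb : ∃ M : ℝ, ∀ x y, |w x y| ≤ M
  symm : ∀ x y, w x y = w y x
  pos : ∀ x y, T.Adj x y → 0 < w x y

/-- the reproducing kernel property -/
def IsKer (T : SimpleGraph V) [T.LocallyFinite] (c : V → ℝ) (w : V → V → ℝ) (lam : ℝ)
    (k : V → V → ℝ) : Prop :=
  ∀ x, Eig T c w lam (k x) ∧ ∀ u, Eig T c w lam u → ip (k x) u = u x

lemma SqS.bmul {f : V → ℝ} (hf : SqS f) {m : V → ℝ} {M : ℝ} (hm : ∀ x, |m x| ≤ M) :
    SqS (fun x => m x * f x) := by
  unfold SqS
  have h1 : Summable (fun x => f x ^ 2) := hf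
  apply Summable.of_nonneg_of_le (fun x => sq_nonneg _) _ (h1.mul_left (M ^ 2))
  intro x
  rw [mul_pow]
  apply mul_le_mul_of_nonneg_right _ (sq_nonneg _)
  rw [← sq_abs]
  exact pow_le_pow_left₀ (abs_nonneg _) (hm x) 2

lemma IsKer.symm {k : V → V → ℝ} (hk : IsKer T c w lam k) (x y : V) : k x y = k y x := by
  rw [← (hk x).2 _ (hk y).1, ← (hk y).2 _ (hk x).1, ip_comm]

lemma IsKer.self_nonneg {k : V → V → ℝ} (hk : IsKer T c w lam k) (x : V) : 0 ≤ k x x := by
  rw [← (hk x).2 _ (hk x).1]; exact ip_self_nonneg _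

lemma IsKer.eq_zero {k : V → V → ℝ} (hk : IsKer T c w lam k) {x : V} (h : k x x = 0)
    {u : V → ℝ} (hu : Eig T c w lam u) : u x = 0 := by
  have h1 : ip (k x) (k x) = 0 := by rw [(hk x).2 _ (hk x).1, h]
  have h2 := ip_self_eq_zero (hk x).1.1 h1
  rw [← (hk x).2 u hu]
  unfold ip
  simp [h2]

lemma IsKer.unique {k : V → V → ℝ} (hk : IsKer T c w lam k) {x : V} {h : V → ℝ}
    (h1 : Eig T c w lam h) (h2 : ∀ u, Eig T c w lam u → ip h u = u x) : h = k x := by
  have h3 := h1.sub (hk x).1
  have h4 : ip (fun z => h z - k x z) (fun z => h z - k x z) = 0 := by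
    rw [ip_sub_left h1.1 (hk x).1.1 h3.1, h2 _ h3, (hk x).2 _ h3]; ring
  ext z
  have := ip_self_eq_zero h3.1 h4 z
  linarith

/-- An eigenfunction on a branch, extended by zero, is an eigenfunction off the root. -/
def NE (T : SimpleGraph V) [T.LocallyFinite] (c : V → ℝ) (w : V → V → ℝ) (lam : ℝ) (y : V)
    (f : V → ℝ) : Prop :=
  SqS f ∧ f y = 0 ∧ ∀ z, z ≠ y → c z * f z + aop T w f z = lam * f z

lemma NE.add {y : V} {f g : V → ℝ} (hf : NE T c w lam y f) (hg : NE T c w lam y g) :
    NE T c w lam y (fun x => f x + g x) := by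
  refine ⟨hf.1.add hg.1, by simp [hf.2.1, hg.2.1], fun x hx => ?_⟩
  rw [aop_add]
  linear_combination hf.2.2 x hx + hg.2.2 x hx

lemma NE.sub {y : V} {f g : V → ℝ} (hf : NE T c w lam y f) (hg : NE T c w lam y g) :
    NE T c w lam y (fun x => f x - g x) := by
  refine ⟨hf.1.sub hg.1, by simp [hf.2.1, hg.2.1], fun x hx => ?_⟩
  rw [aop_sub]
  linear_combination hf.2.2 x hx - hg.2.2 x hx

lemma NE.smul {y : V} {f : V → ℝ} (hf : NE T c w lam y f) (t : ℝ) :
    NE T c w lam y (fun x => t * f x) := by
  refine ⟨hf.1.smul t, by simp [hf.2.1], fun x hx => ?_⟩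
  rw [aop_smul]
  linear_combination t * hf.2.2 x hx

lemma aop_sum {ι : Type*} (s : Finset ι) (f : ι → V → ℝ) (x : V) :
    aop T w (fun z => ∑ i ∈ s, f i z) x = ∑ i ∈ s, aop T w (f i) x := by
  unfold aop
  rw [Finset.sum_comm]
  apply Finset.sum_congr rfl
  intro y _
  rw [Finset.mul_sum]

lemma NE.sum {ι : Type*} {y : V} (s : Finset ι) {f : ι → V → ℝ}
    (hf : ∀ i ∈ s, NE T c w lam y (f i)) :
    NE T c w lam y (fun x => ∑ i ∈ s, f i x) := by
  refine ⟨SqS.sum s fun i hi => (hf i hi).1, Finset.sum_eq_zero fun i hi => (hf i hi).2.1,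
    fun x hx => ?_⟩
  rw [aop_sum, Finset.mul_sum, Finset.mul_sum, ← Finset.sum_add_distrib]
  exact Finset.sum_congr rfl fun i hi => (hf i hi).2.2 x hx

lemma NE.eig {y : V} {f : V → ℝ} (hf : NE T c w lam y f) (h : aop T w f y = 0) :
    Eig T c w lam f := by
  refine ⟨hf.1, fun x => ?_⟩
  by_cases hx : x = y
  · subst hx; rw [hf.2.1, h]; ring
  · exact hf.2.2 x hx

/-- restricting an eigenfunction vanishing at the root to a branch -/
lemma NE_rst (hG : Good T c w) {y i : V} (hi : T.Adj y i) {u : V → ℝ} (hu : Eig T c w lam u)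
    (hy : u y = 0) : NE T c w lam y (rst (Br T y i) u) ∧
      aop T w (rst (Br T y i) u) y = w y i * u i := by
  have hT := hG.tree
  refine ⟨⟨hu.1.rst _, rst_not_mem self_not_mem_Br, ?_⟩, ?_⟩
  · intro z hz
    by_cases hz' : z ∈ Br T y i
    · rw [rst_mem hz', ← hu.2 z]
      congr 1
      unfold aop
      apply Finset.sum_congr rfl
      intro z' hzz
      rw [mem_neighborFinset] at hzz
      by_cases h : z' ∈ Br T y i
      · rw [rst_mem h]
      · have := Br_boundary hT hi hzz hz' h
        rw [rst_not_mem h, this.2, hy]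
    · rw [rst_not_mem hz']
      have : aop T w (rst (Br T y i) u) z = 0 := by
        unfold aop
        apply Finset.sum_eq_zero
        intro z' hzz
        rw [mem_neighborFinset] at hzz
        by_cases h : z' ∈ Br T y i
        · exact absurd (Br_boundary hT hi hzz.symm h hz').2 hz
        · rw [rst_not_mem h]; ring
      rw [this]; ring
  · unfold aop
    rw [Finset.sum_eq_single i]
    · rw [rst_mem (nbr_mem_Br hi)]
    · intro z' hzz hne
      rw [mem_neighborFinset] at hzz
      have : z' ∉ Br T y i := fun h => hne (Br_boundary hT hi hzz.symm h self_not_mem_Br).1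
      rw [rst_not_mem this]; ring
    · intro h
      exact absurd (by rwa [mem_neighborFinset]) h

/-- Green's identity against a function that solves the equation off one vertex. -/
lemma green (hG : Good T c w) {y : V} {f u : V → ℝ} (hf : NE T c w lam y f)
    (hu : Eig T c w lam u) : aop T w f y * u y = 0 := by
  classical
  obtain ⟨D, hD⟩ := hG.deg
  obtain ⟨M, hM⟩ := hG.wb
  obtain ⟨M', hM'⟩ := hG.cb
  have h1 := aop_symm T hD hG.symm hM hf.1 hu.1
  have hb : ∀ z, |lam - c z| ≤ |lam| + M' := fun z =>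
    (abs_sub _ _).trans (add_le_add le_rfl (hM' z))
  have h2 : aop T w u = fun z => (lam - c z) * u z := by
    ext z; linear_combination hu.2 z
  have h3 : aop T w f = fun z => (lam - c z) * f z + (if z = y then aop T w f y else 0) := by
    ext z
    by_cases hz : z = y
    · subst hz; rw [if_pos rfl, hf.2.1]; ring
    · rw [if_neg hz]; linear_combination hf.2.2 z hz
  have hs : SqS (fun z => if z = y then aop T w f y else 0) := by
    unfold SqS
    apply summable_of_hasFiniteSupport
    apply Set.Finite.subset (Set.finite_singleton y)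
    intro z hz
    simp only [Function.mem_support, ne_eq] at hz
    by_contra hne
    apply hz
    rw [if_neg (by simpa using hne)]; ring
  rw [h3, ip_add_left (hf.1.bmul hb) hs hu.1, h2] at h1
  have h4 : ip (fun z => (lam - c z) * f z) u = ip f (fun z => (lam - c z) * u z) := by
    unfold ip; apply tsum_congr; intro z; ring
  have h5 : ip (fun z => if z = y then aop T w f y else 0) u = aop T w f y * u y := by
    unfold ip
    rw [tsum_eq_single y]
    · simp
    · intro z hz; simp [hz]
  rw [h4, h5] at h1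
  linarith

lemma eig_nbr_zero (hG : Good T c w) {x y : V} (hxy : T.Adj x y) {u0 u : V → ℝ}
    (hu0 : Eig T c w lam u0) (h0 : u0 x ≠ 0) (hu : Eig T c w lam u) (hx : u x = 0) : u y = 0 := by
  obtain ⟨h1, h2⟩ := NE_rst hG hxy hu hx
  have h3 := green hG h1 hu0
  rw [h2] at h3
  have h4 := hG.pos x y hxy
  rcases mul_eq_zero.mp h3 with h5 | h5
  · rcases mul_eq_zero.mp h5 with h6 | h6
    · exact absurd h6 h4.ne'
    · exact h6
  · exact absurd h5 h0

lemma eig_ratio (hG : Good T c w) {k : V → V → ℝ} (hk : IsKer T c w lam k) {x y : V}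
    (hxy : T.Adj x y) (hx : 0 < k x x) {u : V → ℝ} (hu : Eig T c w lam u) :
    u y = k x y / k x x * u x := by
  have h1 := hu.sub ((hk x).1.smul (u x / k x x))
  have h2 : (fun z => u z - u x / k x x * k x z) x = 0 := by
    simp only
    field_simp
    ring
  have h3 := eig_nbr_zero hG hxy (hk x).1 hx.ne' h1 h2
  have : u y = u x / k x x * k x y := by linarith
  rw [this]; ring

/-- the share of the mass of the kernel at `x` that lies on the branch towards `y` -/
noncomputable def theta (T : SimpleGraph V) (k : V → V → ℝ) (x y : V) : ℝ :=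
  ip (rst (Br T x y) (k x)) (k x) / k x x

omit [T.LocallyFinite] in
lemma rst_add_rst (hT : T.IsTree) {x y : V} (hxy : T.Adj x y) (f : V → ℝ) (z : V) :
    rst (Br T x y) f z + rst (Br T y x) f z = f z := by
  by_cases h : z ∈ Br T x y
  · have h2 : z ∉ Br T y x := by
      rw [not_mem_Br_iff hT hxy.symm]; exact h
    rw [rst_mem h, rst_not_mem h2]; ring
  · have h2 : z ∈ Br T y x := by
      rwa [not_mem_Br_iff hT hxy] at h
    rw [rst_mem h2, rst_not_mem h]; ring

omit [T.LocallyFinite] in
lemma ip_branches (hT : T.IsTree) {x y : V} (hxy : T.Adj x y) {f g : V → ℝ} (hf : SqS f)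
    (hg : SqS g) :
    ip (rst (Br T x y) f) g + ip (rst (Br T y x) f) g = ip f g := by
  rw [← ip_add_left (hf.rst _) (hf.rst _) hg]
  congr 1
  ext z
  exact rst_add_rst hT hxy f z

/-- (D) -/
theorem theta_edge (hG : Good T c w) {k : V → V → ℝ} (hk : IsKer T c w lam k) {x y : V}
    (hxy : T.Adj x y) (hx : 0 < k x x) (hy : 0 < k y y) :
    theta T k x y + theta T k y x = 1 := by
  set s := k x y / k x x with hs
  have h1 : ∀ z, k y z = s * k x z := by
    intro z
    rw [hk.symm y z, hk.symm x z]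
    exact eig_ratio hG hk hxy hx (hk z).1
  have h2 : k y = fun z => s * k x z := funext h1
  have h3 : k y y = s * s * k x x := by
    rw [h1 y]
    have := eig_ratio hG hk hxy hx (hk x).1
    rw [this, ← hs]; ring
  have hs0 : s ≠ 0 := by
    intro h; rw [h] at h3; simp at h3; exact hy.ne' h3
  have h4 : ip (rst (Br T y x) (k y)) (k y) = s * s * ip (rst (Br T y x) (k x)) (k x) := by
    have e1 : rst (Br T y x) (k y) = fun z => s * rst (Br T y x) (k x) z := by
      ext z
      by_cases h : z ∈ Br T y x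
      · rw [rst_mem h, rst_mem h, h1]
      · rw [rst_not_mem h, rst_not_mem h]; ring
    rw [e1, ip_smul_left, ip_comm, h2, ip_smul_left, ip_comm]; ring
  unfold theta
  rw [h4, h3]
  have h5 := ip_branches hG.tree hxy (hk x).1.1 (hk x).1.1
  rw [(hk x).2 _ (hk x).1] at h5
  have hx' := hx.ne'
  field_simp
  linarith

/-- (C) -/
theorem theta_vertex (hG : Good T c w) {k : V → V → ℝ} (hk : IsKer T c w lam k) {x : V}
    (hx : 0 < k x x) : ∑ y ∈ T.neighborFinset x, theta T k x y = 1 - k x x := by
  classical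
  have hT := hG.tree
  have hs : SqS (fun z => if z = x then k x x else 0) := by
    unfold SqS
    apply summable_of_hasFiniteSupport
    apply Set.Finite.subset (Set.finite_singleton x)
    intro z hz
    simp only [Function.mem_support, ne_eq] at hz
    by_contra hne
    apply hz
    rw [if_neg (by simpa using hne)]; ring
  have h1 : k x = fun z => (if z = x then k x x else 0) +
      ∑ y ∈ T.neighborFinset x, rst (Br T x y) (k x) z := by
    ext z
    by_cases hz : z = x
    · subst hz
      rw [if_pos rfl, Finset.sum_eq_zero, add_zero]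
      intro y _
      exact rst_not_mem self_not_mem_Br
    · rw [if_neg hz, zero_add]
      obtain ⟨y, hy, hzy⟩ := exists_Br hT hz
      rw [Finset.sum_eq_single y]
      · rw [rst_mem hzy]
      · intro y' hy' hne
        rw [mem_neighborFinset] at hy'
        exact rst_not_mem fun h => hne (Br_unique hT hy' hy h hzy)
      · intro h
        exact absurd (by rwa [mem_neighborFinset]) h
  have h2 : ip (k x) (k x) = k x x * k x x +
      ∑ y ∈ T.neighborFinset x, ip (rst (Br T x y) (k x)) (k x) := by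
    have e1 : ip (k x) (k x) = ip (fun z => (if z = x then k x x else 0) +
      ∑ y ∈ T.neighborFinset x, rst (Br T x y) (k x) z) (k x) := congrArg (fun f => ip f (k x)) h1
    rw [e1, ip_add_left hs (SqS.sum _ fun y _ => (hk x).1.1.rst _) (hk x).1.1,
      ip_sum_left _ (fun y _ => (hk x).1.1.rst _) (hk x).1.1]
    congr 1
    unfold ip
    rw [tsum_eq_single x]
    · simp
    · intro z hz; simp [hz]
  rw [(hk x).2 _ (hk x).1] at h2
  unfold theta
  rw [← Finset.sum_div, eq_comm, eq_div_iff hx.ne']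
  linarith

/-- (E) -/
theorem theta_boundary (hG : Good T c w) {k : V → V → ℝ} (hk : IsKer T c w lam k) {y : V}
    (hy : k y y = 0) (hex : ∃ x, T.Adj y x ∧ 0 < k x x) :
    open Classical in
    ∑ x ∈ (T.neighborFinset y).filter (fun x => 0 < k x x), theta T k x y = 1 := by
  classical
  have hT := hG.tree
  set P := (T.neighborFinset y).filter (fun x => 0 < k x x) with hP
  have hPmem : ∀ i, i ∈ P ↔ T.Adj y i ∧ 0 < k i i := by
    intro i; rw [hP, Finset.mem_filter, mem_neighborFinset]
  have hky : ∀ i, k i y = 0 := fun i => hk.eq_zero hy (hk i).1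
  -- the restrictions
  set g : V → V → ℝ := fun i => rst (Br T y i) (k i) with hg
  have hgNE : ∀ i ∈ P, NE T c w lam y (g i) ∧ aop T w (g i) y = w y i * k i i := by
    intro i hi
    exact NE_rst hG ((hPmem i).1 hi).1 (hk i).1 (hky i)
  have hgi : ∀ i ∈ P, g i i = k i i := fun i hi => rst_mem (nbr_mem_Br ((hPmem i).1 hi).1)
  set n : V → ℝ := fun i => ip (g i) (k i) with hn
  have hn' : ∀ i, n i = ip (g i) (g i) := fun i => ip_rst_left _ _ _
  have hn0 : ∀ i ∈ P, 0 < n i := by
    intro i hi
    rcases (ip_self_nonneg (g i)).lt_or_eq with h | h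
    · rw [hn']; exact h
    · have := ip_self_eq_zero (hgNE i hi).1.1 h.symm i
      rw [hgi i hi] at this
      exact absurd this ((hPmem i).1 hi).2.ne'
  -- reproducing property of `g i`
  have hgu : ∀ i ∈ P, ∀ u, Eig T c w lam u → ip (g i) u = n i / k i i * u i := by
    intro i hi u hu
    have hi1 := ((hPmem i).1 hi).1
    have hi2 := ((hPmem i).1 hi).2
    have huy := hk.eq_zero hy hu
    obtain ⟨a1, a2⟩ := NE_rst hG hi1 hu huy
    obtain ⟨b1, b2⟩ := hgNE i hi
    have h1 := a1.sub (b1.smul (u i / k i i))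
    have h2 : aop T w (fun z => rst (Br T y i) u z - u i / k i i * g i z) y = 0 := by
      rw [aop_sub, aop_smul, a2, b2]
      field_simp
      ring
    have h3 := h1.eig h2
    have h4 := (hk i).2 _ h3
    rw [rst_mem (nbr_mem_Br hi1), hgi i hi, ip_comm, ip_sub_left a1.1 (b1.1.smul _) (hk i).1.1,
      ip_smul_left, ip_rst_comm, ip_comm u] at h4
    have h5 : u i - u i / k i i * k i i = 0 := by field_simp; ring
    rw [h5] at h4
    have h6 : ip (rst (Br T y i) (k i)) u = u i / k i i * n i := by
      linarith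
    change ip (rst (Br T y i) (k i)) u = _
    rw [h6]; ring
  -- normalised branch kernels
  set C : V → ℝ := fun i => k i i ^ 2 / n i with hC
  have hC0 : ∀ i ∈ P, 0 < C i := fun i hi => by
    have := ((hPmem i).1 hi).2
    have := hn0 i hi
    simp only [hC]
    positivity
  obtain ⟨q, hq⟩ : ∃ q : V → V → ℝ, q = fun i z => k i i / n i * g i z := ⟨_, rfl⟩
  have hqNE : ∀ i ∈ P, NE T c w lam y (q i) := fun i hi => by
    rw [hq]; exact (hgNE i hi).1.smul _
  have hqy : ∀ i ∈ P, aop T w (q i) y = w y i * C i := by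
    intro i hi
    rw [hq]
    simp only
    rw [aop_smul, (hgNE i hi).2]
    simp only [hC]
    ring
  have hqu : ∀ i ∈ P, ∀ u, Eig T c w lam u → ip (q i) u = u i := by
    intro i hi u hu
    rw [hq]
    simp only
    rw [ip_smul_left, hgu i hi u hu]
    have h1 := ((hPmem i).1 hi).2.ne'
    have h2 := (hn0 i hi).ne'
    field_simp
  have hqi : ∀ i ∈ P, q i i = C i := by
    intro i hi
    simp only [hq, hC]
    rw [hgi i hi]; ring
  have hqj : ∀ i ∈ P, ∀ j ∈ P, j ≠ i → q j i = 0 := by
    intro i hi j hj hne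
    have : i ∉ Br T y j := fun h => hne
      (Br_unique hT ((hPmem j).1 hj).1 ((hPmem i).1 hi).1 h (nbr_mem_Br ((hPmem i).1 hi).1))
    simp only [hq, hg]
    rw [rst_not_mem this]; ring
  set S : ℝ := ∑ j ∈ P, w y j * (w y j * C j) with hS
  have hwpos : ∀ j ∈ P, 0 < w y j := fun j hj => hG.pos y j ((hPmem j).1 hj).1
  have hS0 : 0 < S := by
    obtain ⟨x, hx1, hx2⟩ := hex
    apply Finset.sum_pos
    · intro j hj
      exact mul_pos (hwpos j hj) (mul_pos (hwpos j hj) (hC0 j hj))
    · exact ⟨x, (hPmem x).2 ⟨hx1, hx2⟩⟩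
  obtain ⟨e, he⟩ : ∃ e : V → ℝ, e = fun z => ∑ j ∈ P, w y j * q j z := ⟨_, rfl⟩
  have heNE : NE T c w lam y e := by
    rw [he]; exact NE.sum P fun j hj => (hqNE j hj).smul _
  have hey : aop T w e y = S := by
    rw [he, aop_sum, hS]
    apply Finset.sum_congr rfl
    intro j hj
    rw [aop_smul, hqy j hj]
  have heu : ∀ u, Eig T c w lam u → ip e u = 0 := by
    intro u hu
    rw [he, ip_sum_left P (fun j hj => (hqNE j hj).1.smul _) hu.1]
    have h1 : ∀ j ∈ P, ip (fun z => w y j * q j z) u = w y j * u j := by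
      intro j hj; rw [ip_smul_left, hqu j hj u hu]
    rw [Finset.sum_congr rfl h1]
    have h2 := hu.2 y
    rw [hk.eq_zero hy hu] at h2
    have h3 : aop T w u y = ∑ j ∈ P, w y j * u j := by
      unfold aop
      rw [hP, Finset.sum_filter]
      apply Finset.sum_congr rfl
      intro j hj
      split_ifs with h
      · rfl
      · have : k j j = 0 := le_antisymm (not_lt.mp h) (hk.self_nonneg j)
        rw [hk.eq_zero this hu]; ring
    rw [← h3]; linarith
  have hei : ∀ i ∈ P, e i = w y i * C i := by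
    intro i hi
    rw [he]
    simp only
    rw [Finset.sum_eq_single i]
    · rw [hqi i hi]
    · intro j hj hne
      rw [hqj i hi j hj hne]; ring
    · intro h; exact absurd hi h
  -- the formula for the kernel
  have hkey : ∀ i ∈ P, k i i = C i - w y i * C i / S * (w y i * C i) := by
    intro i hi
    have h1 : NE T c w lam y (fun z => q i z - w y i * C i / S * e z) :=
      (hqNE i hi).sub (heNE.smul _)
    have h2 : aop T w (fun z => q i z - w y i * C i / S * e z) y = 0 := by
      rw [aop_sub, aop_smul, hqy i hi, hey]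
      field_simp
      ring
    have h3 := h1.eig h2
    have h4 := hk.unique (x := i) h3 (by
      intro u hu
      rw [ip_sub_left (hqNE i hi).1 (heNE.1.smul _) hu.1, ip_smul_left, hqu i hi u hu, heu u hu]
      ring)
    have h5 : q i i - w y i * C i / S * e i = k i i := congrFun h4 i
    rw [← h5, hqi i hi, hei i hi]
  have hth : ∀ i ∈ P, theta T k i y = w y i * (w y i * C i) / S := by
    intro i hi
    have hi1 := ((hPmem i).1 hi).1
    have hi2 := ((hPmem i).1 hi).2
    have h1 := ip_branches hT hi1.symm (hk i).1.1 (hk i).1.1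
    rw [(hk i).2 _ (hk i).1] at h1
    have h2 : ip (rst (Br T i y) (k i)) (k i) = k i i - n i := by
      simp only [hn, hg]; linarith
    unfold theta
    rw [h2]
    have h3 := hkey i hi
    have h4 := hn0 i hi
    have h5 : n i = k i i ^ 2 / C i := by
      simp only [hC]; field_simp
    have h6 := hC0 i hi
    rw [h5, div_eq_div_iff hi2.ne' hS0.ne']
    have h7 : k i i * S = C i * S - w y i * C i * (w y i * C i) := by
      rw [h3]; field_simp
    have h8 : (k i i - k i i ^ 2 / C i) * S = k i i * (S - k i i * S / C i) := by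
      field_simp
    rw [h8, h7]
    field_simp
    ring
  rw [Finset.sum_congr rfl hth, ← Finset.sum_div]
  exact div_self hS0.ne'

/-- Invariance under automorphisms that preserve the coefficients. -/
lemma aop_iso (φ : T ≃g T) (hw : ∀ x y, w (φ x) (φ y) = w x y) (f : V → ℝ) (x : V) :
    aop T w (fun z => f (φ z)) x = aop T w f (φ x) := by
  unfold aop
  apply Finset.sum_bij (fun y _ => φ y)
  · intro y hy
    rw [mem_neighborFinset] at hy ⊢
    exact φ.map_adj_iff.2 hy
  · intro a _ b _ h; exact φ.injective h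
  · intro b hb
    refine ⟨φ.symm b, ?_, by simp⟩
    rw [mem_neighborFinset] at hb ⊢
    rw [← φ.map_adj_iff]
    simpa using hb
  · intro y _
    rw [hw]

lemma Eig.iso (φ : T ≃g T) (hc : ∀ x, c (φ x) = c x) (hw : ∀ x y, w (φ x) (φ y) = w x y)
    {f : V → ℝ} (hf : Eig T c w lam f) : Eig T c w lam (fun z => f (φ z)) := by
  refine ⟨?_, fun x => ?_⟩
  · have h1 : Summable (fun x => f x ^ 2) := hf.1
    exact (φ.toEquiv.summable_iff (f := fun x => f x ^ 2)).2 h1
  · rw [aop_iso φ hw, ← hc]; exact hf.2 (φ x)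

omit [T.LocallyFinite] in
lemma ip_iso (φ : T ≃g T) (f g : V → ℝ) : ip (fun z => f (φ z)) (fun z => g (φ z)) = ip f g := by
  unfold ip
  exact φ.toEquiv.tsum_eq (fun x => f x * g x)

theorem ker_iso {k : V → V → ℝ} (hk : IsKer T c w lam k) (φ : T ≃g T) (hc : ∀ x, c (φ x) = c x)
    (hw : ∀ x y, w (φ x) (φ y) = w x y) (x : V) : (fun z => k (φ x) (φ z)) = k x := by
  apply hk.unique
  · exact (hk (φ x)).1.iso φ hc hw
  · intro u hu
    have h1 : Eig T c w lam (fun z => u (φ.symm z)) := by
      apply hu.iso φ.symm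
      · intro x; rw [← hc]; simp
      · intro x y; rw [← hw]; simp
    have h2 := (hk (φ x)).2 _ h1
    have h3 := ip_iso φ (k (φ x)) (fun z => u (φ.symm z))
    rw [h2] at h3
    simpa using h3

theorem theta_iso (hT : T.IsTree) {k : V → V → ℝ} (hk : IsKer T c w lam k) (φ : T ≃g T)
    (hc : ∀ x, c (φ x) = c x) (hw : ∀ x y, w (φ x) (φ y) = w x y) (x y : V) :
    theta T k (φ x) (φ y) = theta T k x y := by
  have h1 := ker_iso hk φ hc hw x
  have h2 : ∀ z, k (φ x) (φ z) = k x z := fun z => congrFun h1 z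
  unfold theta
  rw [h2 x]
  congr 1
  rw [← ip_iso φ]
  have h3 : (fun z => rst (Br T (φ x) (φ y)) (k (φ x)) (φ z)) = rst (Br T x y) (k x) := by
    ext z
    by_cases h : z ∈ Br T x y
    · rw [rst_mem h, rst_mem ((Br_iso hT φ x y z).2 h), h2]
    · rw [rst_not_mem h, rst_not_mem (fun h' => h ((Br_iso hT φ x y z).1 h'))]
  rw [h3, h1]

end Pool.Agent.Lib.MP1155ce
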