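import Mathlib
import Pool.Agent.Lib.MP_1155ce_an.Local

/-! Double counting for the complete bipartite base graph. -/

namespace Pool.Agent.Lib.MP1155ce

open SimpleGraph Finset

lemma count {r g : ℕ} (hg : 2 ≤ g) (hrg : g ≤ r) (α : Fin r → Fin g → ℝ) (β : Fin g → Fin r → ℝ)
    (p : Fin r → Prop) (q : Fin g → Prop) [DecidablePred p] [DecidablePred q]
    (h1 : ∀ i, p i → ∑ j, α i j < 1) (h2 : ∀ j, q j → ∑ i, β j i < 1)
    (h3 : ∀ i j, p i → q j → α i j + β j i = 1)
    (h4 : ∀ i, ¬ p i → (∃ j, q j) → ∑ j ∈ univ.filter q, β j i = 1)
    (h5 : ∀ j, ¬ q j → (∃ i, p i) → ∑ i ∈ univ.filter p, α i j = 1) : ∀ j, ¬ q j := by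
  intro j0 hj0
  have hQne : (univ.filter q).Nonempty := ⟨j0, by simp [hj0]⟩
  have hQcard : 1 ≤ (univ.filter q).card := Finset.card_pos.mpr hQne
  have hQle : (univ.filter q).card ≤ g := by
    simpa using Finset.card_le_univ (univ.filter q)
  have hPle : (univ.filter p).card ≤ r := by
    simpa using Finset.card_le_univ (univ.filter p)
  have hPc : (univ.filter (fun i => ¬ p i)).card + (univ.filter p).card = r := by
    have := Finset.card_filter_add_card_filter_not (s := (univ : Finset (Fin r))) p
    simp only [Finset.card_univ, Fintype.card_fin] at this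
    omega
  have hQc : (univ.filter (fun i => ¬ q i)).card + (univ.filter q).card = g := by
    have := Finset.card_filter_add_card_filter_not (s := (univ : Finset (Fin g))) q
    simp only [Finset.card_univ, Fintype.card_fin] at this
    omega
  have e1 : ∑ j ∈ univ.filter q, ∑ i, β j i < (univ.filter q).card := by
    have : ∑ j ∈ univ.filter q, ∑ i, β j i < ∑ j ∈ univ.filter q, (1 : ℝ) := by
      apply Finset.sum_lt_sum_of_nonempty hQne
      intro j hj
      exact h2 j (by simpa using hj)
    simpa using this
  have e2 : ∑ j ∈ univ.filter q, ∑ i, β j i =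
      ∑ i ∈ univ.filter p, ∑ j ∈ univ.filter q, β j i + (univ.filter (fun i => ¬ p i)).card := by
    rw [Finset.sum_comm, ← Finset.sum_filter_add_sum_filter_not univ p]
    congr 1
    rw [Finset.sum_congr rfl (g := fun _ => (1 : ℝ))]
    · simp
    · intro i hi
      exact h4 i (by simpa using hi) ⟨j0, hj0⟩
  rcases (univ.filter p).eq_empty_or_nonempty with hP | hP
  · rw [hP] at e2 hPc
    simp only [Finset.sum_empty, zero_add] at e2
    simp only [Finset.card_empty, add_zero] at hPc
    rw [e2, hPc] at e1
    have : r < (univ.filter q).card := by exact_mod_cast e1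
    omega
  · obtain ⟨i0, hi0⟩ := id hP
    have hi0' : p i0 := by simpa using hi0
    have hPcard : 1 ≤ (univ.filter p).card := Finset.card_pos.mpr hP
    have e3 : ∑ i ∈ univ.filter p, ∑ j, α i j < (univ.filter p).card := by
      have : ∑ i ∈ univ.filter p, ∑ j, α i j < ∑ i ∈ univ.filter p, (1 : ℝ) := by
        apply Finset.sum_lt_sum_of_nonempty hP
        intro i hi
        exact h1 i (by simpa using hi)
      simpa using this
    have e4 : ∑ i ∈ univ.filter p, ∑ j, α i j =
        ∑ i ∈ univ.filter p, ∑ j ∈ univ.filter q, α i j +
          (univ.filter (fun i => ¬ q i)).card := by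
      rw [Finset.sum_comm, ← Finset.sum_filter_add_sum_filter_not univ q]
      congr 1
      · rw [Finset.sum_comm]
      rw [Finset.sum_congr rfl (g := fun _ => (1 : ℝ))]
      · simp
      · intro j hj
        exact h5 j (by simpa using hj) ⟨i0, hi0'⟩
    have e5 : ∑ i ∈ univ.filter p, ∑ j ∈ univ.filter q, α i j +
        ∑ i ∈ univ.filter p, ∑ j ∈ univ.filter q, β j i =
        (univ.filter p).card * (univ.filter q).card := by
      rw [← Finset.sum_add_distrib]
      rw [Finset.sum_congr rfl (g := fun _ => ((univ.filter q).card : ℝ))]
      · simp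
      · intro i hi
        rw [← Finset.sum_add_distrib]
        rw [Finset.sum_congr rfl (g := fun _ => (1 : ℝ))]
        · simp
        · intro j hj
          exact h3 i j (by simpa using hi) (by simpa using hj)
    have e6 : ((univ.filter p).card * (univ.filter q).card : ℝ) +
        (univ.filter (fun i => ¬ p i)).card + (univ.filter (fun i => ¬ q i)).card <
        (univ.filter p).card + (univ.filter q).card := by linarith
    have e7 : (univ.filter p).card * (univ.filter q).card +
        (univ.filter (fun i => ¬ p i)).card + (univ.filter (fun i => ¬ q i)).card <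
        (univ.filter p).card + (univ.filter q).card := by exact_mod_cast e6
    generalize (univ.filter p).card = A at *
    generalize (univ.filter q).card = B at *
    generalize (univ.filter (fun i => ¬ p i)).card = A' at *
    generalize (univ.filter (fun i => ¬ q i)).card = B' at *
    rcases Nat.lt_or_ge A 2 with hA | hA
    · have : A = 1 := by omega
      subst this
      omega
    · rcases Nat.lt_or_ge B 2 with hB | hB
      · have : B = 1 := by omega
        subst this
        omega
      · have : A + B ≤ A * B := by nlinarith
        omega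

end Pool.Agent.Lib.MP1155ce
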