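import Mathlib
import Pool.Agent.Lib.MP_1155ce_an.Local

/-! Neighbour sums for coverings of the complete bipartite graph, and a compactness argument. -/

namespace Pool.Agent.Lib.MP1155ce

open SimpleGraph Filter Topology

variable {V : Type*} {T : SimpleGraph V} [T.LocallyFinite] {r g : ℕ} {Xi : V → Fin r ⊕ Fin g}

/-- covering of the complete bipartite graph -/
abbrev CovRG (T : SimpleGraph V) (Xi : V → Fin r ⊕ Fin g) : Prop :=
  ∀ x, Set.BijOn Xi (T.neighborSet x) ((completeBipartiteGraph (Fin r) (Fin g)).neighborSet (Xi x))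

omit [T.LocallyFinite] in
lemma nbR (hXi : CovRG T Xi) {x : V} {i : Fin r} (hx : Xi x = Sum.inl i) (j : Fin g) :
    T.Adj x (nb T Xi x (Sum.inr j)) ∧ Xi (nb T Xi x (Sum.inr j)) = Sum.inr j :=
  nb_spec hXi (by rw [hx]; simp)

omit [T.LocallyFinite] in
lemma nbG (hXi : CovRG T Xi) {x : V} {j : Fin g} (hx : Xi x = Sum.inr j) (i : Fin r) :
    T.Adj x (nb T Xi x (Sum.inl i)) ∧ Xi (nb T Xi x (Sum.inl i)) = Sum.inl i :=
  nb_spec hXi (by rw [hx]; simp)

omit [T.LocallyFinite] in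
lemma adj_of_red (hXi : CovRG T Xi) {x y : V} {i : Fin r} (hx : Xi x = Sum.inl i)
    (h : T.Adj x y) : ∃ j, Xi y = Sum.inr j := by
  have h1 := (hXi x).mapsTo h
  rw [hx] at h1
  rcases h2 : Xi y with i' | j
  · rw [h2] at h1; simp at h1
  · exact ⟨j, rfl⟩

omit [T.LocallyFinite] in
lemma adj_of_green (hXi : CovRG T Xi) {x y : V} {j : Fin g} (hx : Xi x = Sum.inr j)
    (h : T.Adj x y) : ∃ i, Xi y = Sum.inl i := by
  have h1 := (hXi x).mapsTo h
  rw [hx] at h1
  rcases h2 : Xi y with i | j'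
  · exact ⟨i, rfl⟩
  · rw [h2] at h1; simp at h1

lemma sumR (hXi : CovRG T Xi) {x : V} {i : Fin r} (hx : Xi x = Sum.inl i) (P : V → Prop)
    (Q : Fin g → Prop) [DecidablePred P] [DecidablePred Q] (F : V → ℝ)
    (hPQ : ∀ j, P (nb T Xi x (Sum.inr j)) ↔ Q j) :
    ∑ j ∈ Finset.univ.filter Q, F (nb T Xi x (Sum.inr j)) =
      ∑ y ∈ (T.neighborFinset x).filter P, F y := by
  apply Finset.sum_bij (fun j _ => nb T Xi x (Sum.inr j))
  · intro j hj
    rw [Finset.mem_filter, mem_neighborFinset]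
    exact ⟨(nbR hXi hx j).1, (hPQ j).2 (by simpa using hj)⟩
  · intro j _ j' _ h
    have h1 := (nbR hXi hx j).2
    rw [h, (nbR hXi hx j').2] at h1
    exact (Sum.inr_injective h1).symm
  · intro y hy
    rw [Finset.mem_filter, mem_neighborFinset] at hy
    obtain ⟨j, hj⟩ := adj_of_red hXi hx hy.1
    have h3 := nb_eq hXi hy.1
    rw [hj] at h3
    refine ⟨j, ?_, h3⟩
    simp only [Finset.mem_filter, Finset.mem_univ, true_and]
    rw [← hPQ, h3]; exact hy.2
  · intro j _; rfl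

lemma sumG (hXi : CovRG T Xi) {x : V} {j : Fin g} (hx : Xi x = Sum.inr j) (P : V → Prop)
    (Q : Fin r → Prop) [DecidablePred P] [DecidablePred Q] (F : V → ℝ)
    (hPQ : ∀ i, P (nb T Xi x (Sum.inl i)) ↔ Q i) :
    ∑ i ∈ Finset.univ.filter Q, F (nb T Xi x (Sum.inl i)) =
      ∑ y ∈ (T.neighborFinset x).filter P, F y := by
  apply Finset.sum_bij (fun i _ => nb T Xi x (Sum.inl i))
  · intro i hi
    rw [Finset.mem_filter, mem_neighborFinset]
    exact ⟨(nbG hXi hx i).1, (hPQ i).2 (by simpa using hi)⟩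
  · intro i _ i' _ h
    have h1 := (nbG hXi hx i).2
    rw [h, (nbG hXi hx i').2] at h1
    exact (Sum.inl_injective h1).symm
  · intro y hy
    rw [Finset.mem_filter, mem_neighborFinset] at hy
    obtain ⟨i, hi⟩ := adj_of_green hXi hx hy.1
    have h3 := nb_eq hXi hy.1
    rw [hi] at h3
    refine ⟨i, ?_, h3⟩
    simp only [Finset.mem_filter, Finset.mem_univ, true_and]
    rw [← hPQ, h3]; exact hy.2
  · intro i _; rfl

/-- An ultrafilter limit of a bounded sequence. -/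
lemma exists_ulim (U : Ultrafilter ℕ) (v : ℕ → ℝ) (hv : ∀ n, |v n| ≤ 1) :
    ∃ l, Tendsto v U (𝓝 l) := by
  have h := (isCompact_Icc (a := (-1 : ℝ)) (b := 1)).ultrafilter_le_nhds (U.map v)
    (tendsto_principal.2 (Eventually.of_forall fun n => abs_le.mp (hv n)))
  obtain ⟨l, _, hl⟩ := h
  exact ⟨l, hl⟩

/-- Diagonal values of a kernel are at most one. -/
lemma IsKer.le_one {c : V → ℝ} {w : V → V → ℝ} {lam : ℝ} {k : V → V → ℝ}
    (hk : IsKer T c w lam k) (x : V) : k x x ≤ 1 := by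
  have h0 := hk.self_nonneg x
  have h1 : k x x * k x x ≤ ip (k x) (k x) :=
    ((hk x).1.1.mul (hk x).1.1).le_tsum x (fun y _ => mul_self_nonneg _)
  rw [(hk x).2 _ (hk x).1] at h1
  nlinarith

lemma IsKer.sq_le {c : V → ℝ} {w : V → V → ℝ} {lam : ℝ} {k : V → V → ℝ}
    (hk : IsKer T c w lam k) (x : V) (F : Finset V) : ∑ z ∈ F, k x z ^ 2 ≤ k x x := by
  have h1 : Summable (fun z => k x z ^ 2) := (hk x).1.1
  have h2 : ∑ z ∈ F, k x z ^ 2 ≤ ∑' z, k x z ^ 2 :=
    h1.sum_le_tsum F (fun z _ => sq_nonneg _)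
  have h3 := (hk x).2 _ (hk x).1
  unfold ip at h3
  rw [← h3]
  refine h2.trans (le_of_eq ?_)
  congr 1; ext z; ring

lemma IsKer.abs_le_one {c : V → ℝ} {w : V → V → ℝ} {lam : ℝ} {k : V → V → ℝ}
    (hk : IsKer T c w lam k) (x z : V) : |k x z| ≤ 1 := by
  have h1 := hk.sq_le x {z}
  rw [Finset.sum_singleton] at h1
  have h2 := hk.le_one x
  rw [abs_le_one_iff_mul_self_le_one]
  nlinarith

end Pool.Agent.Lib.MP1155ce
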