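import Mathlib
import Pool.Agent.Lib.MP_1155ce_an.Cover

/-! The graph subspace of `t A`, where `A` maps functions on the red vertices over `R` to functions
on the green vertices, and the trace of its projection. -/

namespace Pool.Agent.Lib.MP1155ce

open SimpleGraph Filter Topology

variable {V : Type*} {T : SimpleGraph V} [T.LocallyFinite] {r g : ℕ} {Xi : V → Fin r ⊕ Fin g}

open Classical in
/-- the auxiliary diagonal coefficients -/
noncomputable def cR (Xi : V → Fin r ⊕ Fin g) (R : Fin r → Prop) (x : V) : ℝ :=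
  if ∃ i, Xi x = Sum.inl i ∧ R i then 1 else 0

/-- the auxiliary off-diagonal coefficients -/
noncomputable def wR (Xi : V → Fin r ⊕ Fin g) (a : Sym2 (Fin r ⊕ Fin g) → ℝ) (t : ℝ) (x y : V) :
    ℝ :=
  if (Xi x).isRight = true then t * a s(Xi x, Xi y) else 0

variable {R : Fin r → Prop} {a : Sym2 (Fin r ⊕ Fin g) → ℝ} {t : ℝ}

omit [T.LocallyFinite] in
lemma cR_in {x : V} {i : Fin r} (hx : Xi x = Sum.inl i) (hi : R i) : cR Xi R x = 1 := by
  unfold cR; rw [if_pos ⟨i, hx, hi⟩]

omit [T.LocallyFinite] in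
lemma cR_out {x : V} {i : Fin r} (hx : Xi x = Sum.inl i) (hi : ¬ R i) : cR Xi R x = 0 := by
  unfold cR; rw [if_neg]
  rintro ⟨i', h, h'⟩
  rw [hx] at h
  rw [Sum.inl_injective h] at hi
  exact hi h'

omit [T.LocallyFinite] in
lemma cR_green {x : V} {j : Fin g} (hx : Xi x = Sum.inr j) : cR Xi R x = 0 := by
  unfold cR; rw [if_neg]
  rintro ⟨i', h, _⟩
  rw [hx] at h
  cases h

omit [T.LocallyFinite] in
lemma wR_red {x : V} {i : Fin r} (hx : Xi x = Sum.inl i) (y : V) : wR Xi a t x y = 0 := by
  unfold wR; rw [hx]; simp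

omit [T.LocallyFinite] in
lemma wR_green {x : V} {j : Fin g} (hx : Xi x = Sum.inr j) (y : V) :
    wR Xi a t x y = t * a s(Xi x, Xi y) := by
  unfold wR; rw [if_pos]; rw [hx]; rfl

lemma eigR_out {f : V → ℝ} (hf : Eig T (cR Xi R) (wR Xi a t) 1 f) {x : V} {i : Fin r}
    (hx : Xi x = Sum.inl i) (hi : ¬ R i) : f x = 0 := by
  have h := hf.2 x
  rw [cR_out hx hi] at h
  have h1 : aop T (wR Xi a t) f x = 0 := by
    unfold aop
    apply Finset.sum_eq_zero
    intro y _
    rw [wR_red hx]; ring
  rw [h1] at h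
  linarith

lemma eigR_green {f : V → ℝ} (hf : Eig T (cR Xi R) (wR Xi a t) 1 f) {x : V} {j : Fin g}
    (hx : Xi x = Sum.inr j) :
    f x = t * ∑ y ∈ T.neighborFinset x, a s(Xi x, Xi y) * f y := by
  have h := hf.2 x
  rw [cR_green hx] at h
  have h1 : aop T (wR Xi a t) f x = t * ∑ y ∈ T.neighborFinset x, a s(Xi x, Xi y) * f y := by
    unfold aop
    rw [Finset.mul_sum]
    apply Finset.sum_congr rfl
    intro y _
    rw [wR_green hx]; ring
  rw [h1] at h
  linarith

open Classical in
/-- the test function at a red vertex -/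
noncomputable def tst (T : SimpleGraph V) (Xi : V → Fin r ⊕ Fin g)
    (a : Sym2 (Fin r ⊕ Fin g) → ℝ) (t : ℝ) (x z : V) : ℝ :=
  if z = x then 1 else if T.Adj x z then t * a s(Xi x, Xi z) else 0

omit [T.LocallyFinite] in
lemma tst_self (x : V) : tst T Xi a t x x = 1 := by unfold tst; rw [if_pos rfl]

omit [T.LocallyFinite] in
lemma tst_adj {x z : V} (h : T.Adj x z) : tst T Xi a t x z = t * a s(Xi x, Xi z) := by
  unfold tst; rw [if_neg h.ne', if_pos h]

omit [T.LocallyFinite] in
lemma tst_other {x z : V} (h : z ≠ x) (h' : ¬ T.Adj x z) : tst T Xi a t x z = 0 := by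
  unfold tst; rw [if_neg h, if_neg h']

lemma tst_supp [DecidableEq V] (x z : V) (hz : z ∉ insert x (T.neighborFinset x)) :
    tst T Xi a t x z = 0 := by
  rw [Finset.mem_insert, mem_neighborFinset, not_or] at hz
  exact tst_other hz.1 hz.2

lemma tst_eig (hXi : CovRG T Xi) {x : V} {i : Fin r} (hx : Xi x = Sum.inl i) (hi : R i) :
    Eig T (cR Xi R) (wR Xi a t) 1 (tst T Xi a t x) := by
  classical
  constructor
  · unfold SqS
    apply summable_of_hasFiniteSupport
    apply Set.Finite.subset (insert x (T.neighborFinset x)).finite_toSet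
    intro z hz
    by_contra h
    apply hz
    have := tst_supp (T := T) (Xi := Xi) (a := a) (t := t) x z h
    simp [this]
  · intro z
    rcases hz : Xi z with i' | j
    · -- red
      have h1 : aop T (wR Xi a t) (tst T Xi a t x) z = 0 := by
        unfold aop
        apply Finset.sum_eq_zero
        intro y _
        rw [wR_red hz]; ring
      rw [h1]
      by_cases hzx : z = x
      · subst hzx
        rw [tst_self, cR_in hx hi]; ring
      · have h2 : ¬ T.Adj x z := by
          intro h
          obtain ⟨j, hj⟩ := adj_of_red hXi hx h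
          rw [hz] at hj; cases hj
        rw [tst_other hzx h2]; ring
    · have hzx : z ≠ x := by
        rintro rfl
        rw [hx] at hz; cases hz
      rw [cR_green hz]
      by_cases hxz : T.Adj x z
      · rw [tst_adj hxz]
        unfold aop
        rw [Finset.sum_eq_single x]
        · rw [tst_self, wR_green hz, Sym2.eq_swap]; ring
        · intro y hy hyx
          rw [mem_neighborFinset] at hy
          obtain ⟨i', hi'⟩ := adj_of_green hXi hz hy
          rw [tst_other hyx, mul_zero]
          intro h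
          obtain ⟨j', hj'⟩ := adj_of_red hXi hx h
          rw [hi'] at hj'; cases hj'
        · intro h
          exact absurd ((mem_neighborFinset _ _ _).2 hxz.symm) h
      · rw [tst_other hzx hxz]
        have h1 : aop T (wR Xi a t) (tst T Xi a t x) z = 0 := by
          unfold aop
          apply Finset.sum_eq_zero
          intro y hy
          rw [mem_neighborFinset] at hy
          obtain ⟨i', hi'⟩ := adj_of_green hXi hz hy
          rw [tst_other, mul_zero]
          · rintro rfl
            exact hxz hy.symm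
          · intro h
            obtain ⟨j', hj'⟩ := adj_of_red hXi hx h
            rw [hi'] at hj'; cases hj'
        rw [h1]; ring

lemma kerR_red (hXi : CovRG T Xi) {K : V → V → ℝ} (hK : IsKer T (cR Xi R) (wR Xi a t) 1 K)
    {x : V} {i : Fin r} (hx : Xi x = Sum.inl i) (hi : R i) :
    1 - K x x = ∑ y ∈ T.neighborFinset x, t * a s(Xi x, Xi y) * K x y := by
  classical
  have h1 := (hK x).2 _ (tst_eig (a := a) (t := t) hXi hx hi)
  rw [tst_self] at h1
  unfold ip at h1
  rw [tsum_eq_sum (s := insert x (T.neighborFinset x))] at h1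
  · rw [Finset.sum_insert (by simp), tst_self] at h1
    have h2 : ∑ y ∈ T.neighborFinset x, K x y * tst T Xi a t x y =
        ∑ y ∈ T.neighborFinset x, t * a s(Xi x, Xi y) * K x y := by
      apply Finset.sum_congr rfl
      intro y hy
      rw [mem_neighborFinset] at hy
      rw [tst_adj hy]; ring
    rw [h2] at h1
    linarith
  · intro z hz
    rw [tst_supp x z hz, mul_zero]

/-- invariance of the kernel under deck transformations -/
lemma kerR_inv (hT : T.IsTree) (hXi : CovRG T Xi) {K : V → V → ℝ}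
    (hK : IsKer T (cR Xi R) (wR Xi a t) 1 K) {x x' : V} (h : Xi x = Xi x') :
    ∃ φ : T ≃g T, φ x = x' ∧ (∀ z, Xi (φ z) = Xi z) ∧ ∀ z, K x' (φ z) = K x z := by
  obtain ⟨φ, h1, h2⟩ := exists_deck hT hXi h
  refine ⟨φ, h1, h2, ?_⟩
  have h3 := ker_iso hK φ (fun z => by unfold cR; rw [h2]) (fun z z' => by
    unfold wR; rw [h2, h2]) x
  intro z
  have h4 := congrFun h3 z
  rw [h1] at h4
  exact h4

/-- the trace identity -/
theorem kerR_trace (hT : T.IsTree) (hXi : CovRG T Xi) {K : V → V → ℝ} [DecidablePred R]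
    (hK : IsKer T (cR Xi R) (wR Xi a t) 1 K) {s : Fin r ⊕ Fin g → V} (hs : ∀ v, Xi (s v) = v) :
    ∑ i ∈ Finset.univ.filter R, (1 - K (s (Sum.inl i)) (s (Sum.inl i))) =
      ∑ j, K (s (Sum.inr j)) (s (Sum.inr j)) := by
  classical
  have e1 : ∀ i, R i → 1 - K (s (Sum.inl i)) (s (Sum.inl i)) =
      ∑ j, t * a s(Sum.inl i, Sum.inr j) *
        K (s (Sum.inl i)) (nb T Xi (s (Sum.inl i)) (Sum.inr j)) := by
    intro i hi
    rw [kerR_red hXi hK (hs _) hi]
    have h2 := sumR hXi (hs (Sum.inl i)) (fun _ => True) (fun _ => True)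
      (fun y => t * a s(Xi (s (Sum.inl i)), Xi y) * K (s (Sum.inl i)) y) (fun _ => Iff.rfl)
    simp only [Finset.filter_true] at h2
    rw [← h2]
    apply Finset.sum_congr rfl
    intro j _
    rw [(nbR hXi (hs _) j).2, hs]
  have e2 : ∀ j, K (s (Sum.inr j)) (s (Sum.inr j)) = ∑ i ∈ Finset.univ.filter R,
      t * a s(Sum.inl i, Sum.inr j) *
        K (s (Sum.inr j)) (nb T Xi (s (Sum.inr j)) (Sum.inl i)) := by
    intro j
    rw [eigR_green (hK (s (Sum.inr j))).1 (hs _), Finset.mul_sum]
    have h2 := sumG hXi (hs (Sum.inr j)) (fun _ => True) (fun _ => True)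
      (fun y => t * (a s(Xi (s (Sum.inr j)), Xi y) * K (s (Sum.inr j)) y)) (fun _ => Iff.rfl)
    simp only [Finset.filter_true] at h2
    rw [← h2]
    rw [← Finset.sum_filter_add_sum_filter_not Finset.univ R]
    rw [add_eq_left.mpr]
    · apply Finset.sum_congr rfl
      intro i _
      rw [(nbG hXi (hs _) i).2, hs, Sym2.eq_swap]; ring
    · apply Finset.sum_eq_zero
      intro i hi
      rw [eigR_out (hK (s (Sum.inr j))).1 (nbG hXi (hs _) i).2 (by simpa using hi)]; ring
  have e3 : ∀ i j, K (s (Sum.inl i)) (nb T Xi (s (Sum.inl i)) (Sum.inr j)) =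
      K (s (Sum.inr j)) (nb T Xi (s (Sum.inr j)) (Sum.inl i)) := by
    intro i j
    have h1 := nbR hXi (hs (Sum.inl i)) j
    have h2 := nbG hXi (hs (Sum.inr j)) i
    obtain ⟨φ, p1, p2, p3⟩ := kerR_inv hT hXi hK
      (x := s (Sum.inl i)) (x' := nb T Xi (s (Sum.inr j)) (Sum.inl i)) (by rw [hs, h2.2])
    have h3 : φ (nb T Xi (s (Sum.inl i)) (Sum.inr j)) = s (Sum.inr j) := by
      apply (hXi (nb T Xi (s (Sum.inr j)) (Sum.inl i))).injOn
      · rw [← p1]; exact φ.map_adj_iff.2 h1.1
      · exact h2.1.symm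
      · rw [p2, h1.2, hs]
    rw [← p3, h3, hK.symm]
  rw [Finset.sum_congr rfl (fun i hi => e1 i (by simpa using hi)), Finset.sum_comm]
  apply Finset.sum_congr rfl
  intro j _
  rw [e2]
  apply Finset.sum_congr rfl
  intro i _
  rw [e3]

/-- the trace of the projection on the graph, red part -/
theorem kerR_lower (hT : T.IsTree) (hXi : CovRG T Xi) {K : V → V → ℝ} [DecidablePred R]
    (hK : IsKer T (cR Xi R) (wR Xi a t) 1 K) {s : Fin r ⊕ Fin g → V} (hs : ∀ v, Xi (s v) = v) :
    ((Finset.univ.filter R).card : ℝ) - g ≤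
      ∑ i ∈ Finset.univ.filter R, K (s (Sum.inl i)) (s (Sum.inl i)) := by
  have h1 := kerR_trace hT hXi hK hs
  have h2 : ∑ j : Fin g, K (s (Sum.inr j)) (s (Sum.inr j)) ≤ ∑ j : Fin g, (1 : ℝ) :=
    Finset.sum_le_sum fun j _ => hK.le_one _
  rw [← h1, Finset.sum_sub_distrib] at h2
  simp only [Finset.sum_const, Finset.card_univ, Fintype.card_fin, nsmul_eq_mul, mul_one] at h2
  linarith

end Pool.Agent.Lib.MP1155ce
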