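import Mathlib
import Pool.Agent.Lib.MP_1155ce_an.Graph
import Pool.Agent.Lib.MP_1155ce_an.Count

/-! The reproducing kernel of an eigenspace of the lift of a Jacobi matrix on the complete bipartite
graph. -/

namespace Pool.Agent.Lib.MP1155ce

open SimpleGraph Filter Topology

variable {V : Type*} {T : SimpleGraph V} [T.LocallyFinite] {r g : ℕ} {Xi : V → Fin r ⊕ Fin g}

/-- data of a Jacobi matrix lifted to the tree -/
structure Dat (T : SimpleGraph V) [T.LocallyFinite] (Xi : V → Fin r ⊕ Fin g)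
    (a : Sym2 (Fin r ⊕ Fin g) → ℝ) : Prop where
  hT : T.IsTree
  hXi : CovRG T Xi
  ha : ∀ e ∈ (completeBipartiteGraph (Fin r) (Fin g)).edgeSet, 0 < a e

variable {a : Sym2 (Fin r ⊕ Fin g) → ℝ} {b : Fin r ⊕ Fin g → ℝ} {lam : ℝ}

lemma Dat.good (h : Dat T Xi a) (b : Fin r ⊕ Fin g → ℝ) :
    Good T (fun x => b (Xi x)) (fun x y => a s(Xi x, Xi y)) := by
  classical
  refine ⟨h.hT, ⟨Fintype.card (Fin r ⊕ Fin g), ?_⟩, ⟨∑ v, |b v|, ?_⟩, ⟨∑ e, |a e|, ?_⟩, ?_, ?_⟩
  · intro x
    rw [← card_neighborFinset_eq_degree]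
    have h1 : ((T.neighborFinset x).image Xi).card = (T.neighborFinset x).card := by
      apply Finset.card_image_of_injOn
      intro y hy y' hy' hh
      exact (h.hXi x).injOn (by simpa using hy) (by simpa using hy') hh
    rw [← h1]
    exact Finset.card_le_univ _
  · intro x
    exact Finset.single_le_sum (f := fun v => |b v|) (fun v _ => abs_nonneg _)
      (Finset.mem_univ (Xi x))
  · intro x y
    exact Finset.single_le_sum (f := fun e => |a e|) (fun v _ => abs_nonneg _)
      (Finset.mem_univ s(Xi x, Xi y))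
  · intro x y
    rw [Sym2.eq_swap]
  · intro x y hxy
    apply h.ha
    rw [mem_edgeSet]
    exact (h.hXi x).mapsTo hxy

omit [T.LocallyFinite] in
lemma exists_section (hg : 1 ≤ g) (hr : 1 ≤ r) (hXi : CovRG T Xi) (x : V) :
    ∀ v, ∃ x, Xi x = v := by
  have j0 : Fin g := ⟨0, by omega⟩
  have i0 : Fin r := ⟨0, by omega⟩
  have hR : ∃ x i, Xi x = Sum.inl i := by
    rcases h : Xi x with i | j
    · exact ⟨x, i, h⟩
    · exact ⟨_, i0, (nbG hXi h i0).2⟩
  obtain ⟨x1, i1, h1⟩ := hR
  have h2 := (nbR hXi h1 j0).2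
  rintro (i | j)
  · exact ⟨_, (nbG hXi h2 i).2⟩
  · exact ⟨_, (nbR hXi h1 j).2⟩

section

variable (hD : Dat T Xi a) {k : V → V → ℝ}
  (hk : IsKer T (fun x => b (Xi x)) (fun x y => a s(Xi x, Xi y)) lam k)

include hD hk

lemma spec_inv {x x' : V} (h : Xi x = Xi x') : k x x = k x' x' := by
  obtain ⟨φ, h1, h2⟩ := exists_deck hD.hT hD.hXi h
  have h5 : k (φ x) (φ x) = k x x := congrFun (ker_iso hk φ (fun z => by rw [h2])
    (fun z z' => by rw [h2, h2]) x) x
  rw [h1] at h5
  exact h5.symm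

lemma spec_theta {x y x' y' : V} (hxy : T.Adj x y) (hxy' : T.Adj x' y') (h : Xi x = Xi x')
    (h' : Xi y = Xi y') : theta T k x y = theta T k x' y' := by
  obtain ⟨φ, h1, h2⟩ := exists_deck hD.hT hD.hXi h
  have h5 := theta_iso hD.hT hk φ (fun z => by rw [h2]) (fun z z' => by rw [h2, h2]) x y
  have h6 : φ y = y' := by
    apply (hD.hXi x').injOn
    · rw [← h1]; exact φ.map_adj_iff.2 hxy
    · exact hxy'
    · rw [h2, h']
  rw [h1, h6] at h5
  exact h5.symm

/-- all the relations between the numbers theta -/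
lemma spec_rel {s : Fin r ⊕ Fin g → V} (hs : ∀ v, Xi (s v) = v) :
    ∃ (α : Fin r → Fin g → ℝ) (β : Fin g → Fin r → ℝ),
      (∀ i, 0 < k (s (Sum.inl i)) (s (Sum.inl i)) →
        ∑ j, α i j = 1 - k (s (Sum.inl i)) (s (Sum.inl i))) ∧
      (∀ j, 0 < k (s (Sum.inr j)) (s (Sum.inr j)) →
        ∑ i, β j i = 1 - k (s (Sum.inr j)) (s (Sum.inr j))) ∧
      (∀ i j, 0 < k (s (Sum.inl i)) (s (Sum.inl i)) → 0 < k (s (Sum.inr j)) (s (Sum.inr j)) →
        α i j + β j i = 1) ∧
      (∀ i, ¬ 0 < k (s (Sum.inl i)) (s (Sum.inl i)) →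
        (∃ j, 0 < k (s (Sum.inr j)) (s (Sum.inr j))) →
        ∑ j ∈ Finset.univ.filter (fun j => 0 < k (s (Sum.inr j)) (s (Sum.inr j))), β j i = 1) ∧
      (∀ j, ¬ 0 < k (s (Sum.inr j)) (s (Sum.inr j)) →
        (∃ i, 0 < k (s (Sum.inl i)) (s (Sum.inl i))) →
        ∑ i ∈ Finset.univ.filter (fun i => 0 < k (s (Sum.inl i)) (s (Sum.inl i))), α i j = 1) := by
  classical
  have hG := hD.good b
  have nR := fun i j => nbR hD.hXi (hs (Sum.inl i)) j
  have nG := fun j i => nbG hD.hXi (hs (Sum.inr j)) i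
  have kR : ∀ (i : Fin r) (j : Fin g), k (nb T Xi (s (Sum.inl i)) (Sum.inr j))
      (nb T Xi (s (Sum.inl i)) (Sum.inr j)) = k (s (Sum.inr j)) (s (Sum.inr j)) := by
    intro i j; apply spec_inv hD hk; rw [(nR i j).2, hs]
  have kG : ∀ (j : Fin g) (i : Fin r), k (nb T Xi (s (Sum.inr j)) (Sum.inl i))
      (nb T Xi (s (Sum.inr j)) (Sum.inl i)) = k (s (Sum.inl i)) (s (Sum.inl i)) := by
    intro j i; apply spec_inv hD hk; rw [(nG j i).2, hs]
  have tR : ∀ (i : Fin r) (j : Fin g), theta T k (nb T Xi (s (Sum.inl i)) (Sum.inr j))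
      (s (Sum.inl i)) = theta T k (s (Sum.inr j)) (nb T Xi (s (Sum.inr j)) (Sum.inl i)) := by
    intro i j
    apply spec_theta hD hk (nR i j).1.symm (nG j i).1
    · rw [(nR i j).2, hs]
    · rw [(nG j i).2, hs]
  have tG : ∀ (j : Fin g) (i : Fin r), theta T k (nb T Xi (s (Sum.inr j)) (Sum.inl i))
      (s (Sum.inr j)) = theta T k (s (Sum.inl i)) (nb T Xi (s (Sum.inl i)) (Sum.inr j)) := by
    intro j i
    apply spec_theta hD hk (nG j i).1.symm (nR i j).1
    · rw [(nG j i).2, hs]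
    · rw [(nR i j).2, hs]
  refine ⟨fun i j => theta T k (s (Sum.inl i)) (nb T Xi (s (Sum.inl i)) (Sum.inr j)),
    fun j i => theta T k (s (Sum.inr j)) (nb T Xi (s (Sum.inr j)) (Sum.inl i)), ?_, ?_, ?_, ?_, ?_⟩
  · intro i hi
    have h1 := theta_vertex hG hk hi
    have h2 := sumR hD.hXi (hs (Sum.inl i)) (fun _ => True) (fun _ => True)
      (fun y => theta T k (s (Sum.inl i)) y) (fun _ => Iff.rfl)
    simp only [Finset.filter_true] at h2
    rw [h2, h1]
  · intro j hj
    have h1 := theta_vertex hG hk hj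
    have h2 := sumG hD.hXi (hs (Sum.inr j)) (fun _ => True) (fun _ => True)
      (fun y => theta T k (s (Sum.inr j)) y) (fun _ => Iff.rfl)
    simp only [Finset.filter_true] at h2
    rw [h2, h1]
  · intro i j hi hj
    simp only
    rw [← tR i j]
    apply theta_edge hG hk (nR i j).1 hi
    rw [kR]; exact hj
  · rintro i hi ⟨j, hj⟩
    have h0 : k (s (Sum.inl i)) (s (Sum.inl i)) = 0 :=
      le_antisymm (not_lt.mp hi) (hk.self_nonneg _)
    have h1 := theta_boundary hG hk h0 ⟨_, (nR i j).1, by rw [kR]; exact hj⟩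
    have h2 := sumR hD.hXi (hs (Sum.inl i)) (fun y => 0 < k y y)
      (fun j => 0 < k (s (Sum.inr j)) (s (Sum.inr j)))
      (fun y => theta T k y (s (Sum.inl i))) (fun j => by rw [kR])
    simp only [tR] at h2
    rw [h2]; convert h1
  · rintro j hj ⟨i, hi⟩
    have h0 : k (s (Sum.inr j)) (s (Sum.inr j)) = 0 :=
      le_antisymm (not_lt.mp hj) (hk.self_nonneg _)
    have h1 := theta_boundary hG hk h0 ⟨_, (nG j i).1, by rw [kG]; exact hi⟩
    have h2 := sumG hD.hXi (hs (Sum.inr j)) (fun y => 0 < k y y)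
      (fun i => 0 < k (s (Sum.inl i)) (s (Sum.inl i)))
      (fun y => theta T k y (s (Sum.inr j))) (fun i => by rw [kG])
    simp only [tG] at h2
    rw [h2]; convert h1

/-- the kernel vanishes at the green vertices -/
theorem spec_green (hg : 2 ≤ g) (hrg : g ≤ r) {s : Fin r ⊕ Fin g → V} (hs : ∀ v, Xi (s v) = v)
    (j : Fin g) : k (s (Sum.inr j)) (s (Sum.inr j)) = 0 := by
  classical
  obtain ⟨α, β, h1, h2, h3, h4, h5⟩ := spec_rel hD hk hs
  have main := count hg hrg α β
    (fun i => 0 < k (s (Sum.inl i)) (s (Sum.inl i)))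
    (fun j => 0 < k (s (Sum.inr j)) (s (Sum.inr j)))
    (fun i hi => by rw [h1 i hi]; linarith)
    (fun j hj => by rw [h2 j hj]; linarith)
    h3 h4 h5 j
  exact le_antisymm (not_lt.mp main) (hk.self_nonneg _)

/-- the trace when there are eigenvectors -/
theorem spec_sum (hg : 2 ≤ g) (hrg : g ≤ r) {s : Fin r ⊕ Fin g → V} (hs : ∀ v, Xi (s v) = v)
    (hex : ∃ i, 0 < k (s (Sum.inl i)) (s (Sum.inl i))) :
    ∑ i, k (s (Sum.inl i)) (s (Sum.inl i)) =
      ((Finset.univ.filter (fun i => 0 < k (s (Sum.inl i)) (s (Sum.inl i)))).card : ℝ) - g := by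
  classical
  obtain ⟨α, β, h1, h2, h3, h4, h5⟩ := spec_rel hD hk hs
  have e1 : ∑ i, k (s (Sum.inl i)) (s (Sum.inl i)) =
      ∑ i ∈ Finset.univ.filter (fun i => 0 < k (s (Sum.inl i)) (s (Sum.inl i))),
        k (s (Sum.inl i)) (s (Sum.inl i)) := by
    rw [Finset.sum_filter]
    apply Finset.sum_congr rfl
    intro i _
    by_cases h : 0 < k (s (Sum.inl i)) (s (Sum.inl i))
    · rw [if_pos h]
    · rw [if_neg h]
      exact le_antisymm (not_lt.mp h) (hk.self_nonneg _)
  have e2 : ∑ i ∈ Finset.univ.filter (fun i => 0 < k (s (Sum.inl i)) (s (Sum.inl i))),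
      ∑ j, α i j = g := by
    rw [Finset.sum_comm]
    rw [Finset.sum_congr rfl (g := fun _ => (1 : ℝ))]
    · simp
    · intro j _
      exact h5 j (by rw [spec_green hD hk hg hrg hs j]; exact lt_irrefl _) hex
  have e3 : ∑ i ∈ Finset.univ.filter (fun i => 0 < k (s (Sum.inl i)) (s (Sum.inl i))),
      ∑ j, α i j = ∑ i ∈ Finset.univ.filter (fun i => 0 < k (s (Sum.inl i)) (s (Sum.inl i))),
        (1 - k (s (Sum.inl i)) (s (Sum.inl i))) :=
    Finset.sum_congr rfl fun i hi => h1 i (by simpa using hi)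
  rw [e3, Finset.sum_sub_distrib] at e2
  simp only [Finset.sum_const, nsmul_eq_mul, mul_one] at e2
  rw [e1]
  linarith

/-- the kernel is supported on the red vertices with `b = lam` -/
theorem spec_red (hg : 2 ≤ g) (hrg : g ≤ r) {x : V} {i : Fin r}
    (hx : Xi x = Sum.inl i) (hi : b (Sum.inl i) ≠ lam) : k x x = 0 := by
  by_contra h
  obtain ⟨s, hs⟩ := Classical.axiom_of_choice
    (exists_section (by omega) (by omega) hD.hXi x)
  have h1 : b (Xi x) * k x x + aop T (fun x y => a s(Xi x, Xi y)) (k x) x = lam * k x x :=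
    (hk x).1.2 x
  have h2 : aop T (fun x y => a s(Xi x, Xi y)) (k x) x = 0 := by
    unfold aop
    apply Finset.sum_eq_zero
    intro y hy
    rw [mem_neighborFinset] at hy
    obtain ⟨j, hj⟩ := adj_of_red hD.hXi hx hy
    have h3 : k y y = 0 := by
      rw [spec_inv hD hk (show Xi y = Xi (s (Sum.inr j)) by rw [hj, hs])]
      exact spec_green hD hk hg hrg hs j
    rw [hk.symm x y]
    have h4 : k y x = 0 := by
      rw [hk.symm y x]
      exact hk.eq_zero h3 (hk x).1
    rw [h4, mul_zero]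
  rw [h2, hx] at h1
  apply hi
  have : (b (Sum.inl i) - lam) * k x x = 0 := by linarith
  rcases mul_eq_zero.mp this with h5 | h5
  · linarith
  · exact absurd h5 h

/-- the lower bound for the trace -/
theorem spec_lower {s : Fin r ⊕ Fin g → V} (hs : ∀ v, Xi (s v) = v)
    (R : Fin r → Prop) [DecidablePred R] (hR : R = fun i => b (Sum.inl i) = lam) :
    ((Finset.univ.filter R).card : ℝ) - g ≤
      ∑ i, k (s (Sum.inl i)) (s (Sum.inl i)) := by
  set U : Ultrafilter ℕ := hyperfilter ℕ with hU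
  choose K hK using fun n : ℕ => exists_kernel T (cR Xi R) (wR Xi a ((n : ℝ) + 1)) 1
  have hK : ∀ n : ℕ, IsKer T (cR Xi R) (wR Xi a ((n : ℝ) + 1)) 1 (K n) := hK
  have hlim : ∀ x z, ∃ l, Tendsto (fun n => K n x z) U (𝓝 l) :=
    fun x z => exists_ulim U _ (fun n => (hK n).abs_le_one x z)
  choose F hF using hlim
  have hinv : Tendsto (fun n : ℕ => ((n : ℝ) + 1)⁻¹) U (𝓝 0) := by
    have h1 : Tendsto (fun n : ℕ => ((n : ℝ) + 1)⁻¹) atTop (𝓝 0) := by
      have := tendsto_one_div_add_atTop_nhds_zero_nat (𝕜 := ℝ)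
      simpa only [one_div] using this
    exact h1.mono_left (by rw [hU, ← Nat.cofinite_eq_atTop]; exact hyperfilter_le_cofinite)
  -- the limit function restricted to the red vertices
  set f : V → V → ℝ := fun x z => if (Xi z).isRight = true then 0 else F x z with hf
  have hfr : ∀ x z i, Xi z = Sum.inl i → f x z = F x z := by
    intro x z i hz
    simp only [hf]; rw [hz]; simp
  have hfg : ∀ x z j, Xi z = Sum.inr j → f x z = 0 := by
    intro x z j hz
    simp only [hf]; rw [hz]; simp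
  have hfle : ∀ x (S : Finset V), ∑ z ∈ S, f x z ^ 2 ≤ F x x := by
    intro x S
    have h1 : ∑ z ∈ S, F x z ^ 2 ≤ F x x := by
      have t1 : Tendsto (fun n => ∑ z ∈ S, K n x z ^ 2) U (𝓝 (∑ z ∈ S, F x z ^ 2)) :=
        tendsto_finsetSum _ fun z _ => (hF x z).pow 2
      exact le_of_tendsto_of_tendsto' t1 (hF x x) (fun n => (hK n).sq_le x S)
    refine le_trans (Finset.sum_le_sum fun z _ => ?_) h1
    simp only [hf]
    split_ifs
    · simpa using sq_nonneg (F x z)
    · exact le_refl _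
  have hfs : ∀ x, SqS (f x) := by
    intro x
    unfold SqS
    exact summable_of_sum_le (fun z => sq_nonneg _) (hfle x)
  have hfip : ∀ x, ip (f x) (f x) ≤ F x x := by
    intro x
    unfold ip
    have h1 : (fun z => f x z * f x z) = fun z => f x z ^ 2 := by funext z; ring
    rw [h1]
    exact (hfs x).tsum_le_of_sum_le (hfle x)
  have hfe : ∀ x, Eig T (fun x => b (Xi x)) (fun x y => a s(Xi x, Xi y)) lam (f x) := by
    intro x
    refine ⟨hfs x, fun z => ?_⟩
    change b (Xi z) * f x z + aop T (fun x y => a s(Xi x, Xi y)) (f x) z = lam * f x z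
    rcases hz : Xi z with i | j
    · have h1 : aop T (fun x y => a s(Xi x, Xi y)) (f x) z = 0 := by
        unfold aop
        apply Finset.sum_eq_zero
        intro y hy
        rw [mem_neighborFinset] at hy
        obtain ⟨j, hj⟩ := adj_of_red hD.hXi hz hy
        rw [hfg x y j hj, mul_zero]
      rw [h1, add_zero]
      by_cases hi : R i
      · have hi' : b (Sum.inl i) = lam := by rw [hR] at hi; exact hi
        rw [hi']
      · have h2 : f x z = 0 := by
          rw [hfr x z i hz]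
          have h3 : ∀ n, K n x z = 0 := fun n => eigR_out (hK n x).1 hz hi
          have h4 := hF x z
          simp only [h3] at h4
          exact (tendsto_nhds_unique h4 tendsto_const_nhds)
        rw [h2]; ring
    · rw [hfg x z j hz]
      have h1 : aop T (fun x y => a s(Xi x, Xi y)) (f x) z = 0 := by
        have t1 : Tendsto (fun n => ∑ y ∈ T.neighborFinset z, a s(Xi z, Xi y) * K n x y) U
            (𝓝 (∑ y ∈ T.neighborFinset z, a s(Xi z, Xi y) * F x y)) :=
          tendsto_finsetSum _ fun y _ => (hF x y).const_mul _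
        have t2 : Tendsto (fun n : ℕ => ((n : ℝ) + 1)⁻¹ * K n x z) U (𝓝 (0 * F x z)) :=
          hinv.mul (hF x z)
        have e1 : ∀ n : ℕ, ∑ y ∈ T.neighborFinset z, a s(Xi z, Xi y) * K n x y =
            ((n : ℝ) + 1)⁻¹ * K n x z := by
          intro n
          rw [eigR_green (hK n x).1 hz]
          have : (n : ℝ) + 1 ≠ 0 := by positivity
          field_simp
        simp only [e1] at t1
        have e2 := tendsto_nhds_unique t1 t2
        unfold aop
        rw [zero_mul] at e2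
        rw [← e2]
        apply Finset.sum_congr rfl
        intro y hy
        rw [mem_neighborFinset] at hy
        obtain ⟨i, hi⟩ := adj_of_green hD.hXi hz hy
        rw [hfr x y i hi]
      rw [h1]; ring
  have hle : ∀ x i, Xi x = Sum.inl i → F x x ≤ k x x := by
    intro x i hx
    have h1 := (hk x).2 _ (hfe x)
    rw [hfr x x i hx] at h1
    have h2 := ip_self_nonneg (fun z => f x z - k x z)
    rw [ip_sub_left (hfs x) (hk x).1.1 ((hfs x).sub (hk x).1.1), ip_comm (f x),
      ip_sub_left (hfs x) (hk x).1.1 (hfs x), ip_comm (k x) (fun z => f x z - k x z),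
      ip_sub_left (hfs x) (hk x).1.1 (hk x).1.1, ip_comm (f x) (k x), h1,
      (hk x).2 _ (hk x).1] at h2
    have h3 := hfip x
    linarith
  have t1 : Tendsto (fun n => ∑ i ∈ Finset.univ.filter R, K n (s (Sum.inl i)) (s (Sum.inl i))) U
      (𝓝 (∑ i ∈ Finset.univ.filter R, F (s (Sum.inl i)) (s (Sum.inl i)))) :=
    tendsto_finsetSum _ fun i _ => hF _ _
  have h1 : ((Finset.univ.filter R).card : ℝ) - g ≤
      ∑ i ∈ Finset.univ.filter R, F (s (Sum.inl i)) (s (Sum.inl i)) :=
    ge_of_tendsto' t1 fun n => kerR_lower hD.hT hD.hXi (hK n) hs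
  refine h1.trans ?_
  calc ∑ i ∈ Finset.univ.filter R, F (s (Sum.inl i)) (s (Sum.inl i))
      ≤ ∑ i ∈ Finset.univ.filter R, k (s (Sum.inl i)) (s (Sum.inl i)) :=
        Finset.sum_le_sum fun i _ => hle _ i (hs _)
    _ ≤ ∑ i, k (s (Sum.inl i)) (s (Sum.inl i)) :=
        Finset.sum_le_sum_of_subset_of_nonneg (Finset.filter_subset _ _)
          (fun i _ _ => hk.self_nonneg _)

end

end Pool.Agent.Lib.MP1155ce
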